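import Pool.Agent.Helper58.Robin.Shape

/-!
# Transplanted trial functions
-/

open MeasureTheory Set

namespace Pool.Agent.Helper58.Robin

namespace Par

variable (π : Par)

lemma I1_le : π.I1 ≤ π.I0 ∧ -π.I0 ≤ π.I1 := by
  have h1 := int_sym (f := π.F') π.continuous_F' 0 1 1 2 0 0
  have h2 := int_sym (f := π.F') π.continuous_F' 0 1 1 (-2) 0 0
  have h3 : 0 ≤ ∫ z in Tri, (0 * π.F' (1 - z.1 - z.2) ^ 2 + 1 * π.F' z.1 ^ 2 + 1 * π.F' z.2 ^ 2 + 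
      2 * (π.F' z.1 * π.F' z.2) + 0 * (π.F' (1 - z.1 - z.2) * π.F' z.2) + 
      0 * (π.F' (1 - z.1 - z.2) * π.F' z.1)) := by
    apply setIntegral_nonneg measurableSet_Tri
    intro z _
    nlinarith [sq_nonneg (π.F' z.1 + π.F' z.2)]
  have h4 : 0 ≤ ∫ z in Tri, (0 * π.F' (1 - z.1 - z.2) ^ 2 + 1 * π.F' z.1 ^ 2 + 1 * π.F' z.2 ^ 2 + 
      (-2) * (π.F' z.1 * π.F' z.2) + 0 * (π.F' (1 - z.1 - z.2) * π.F' z.2) + 
      0 * (π.F' (1 - z.1 - z.2) * π.F' z.1)) := by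
    apply setIntegral_nonneg measurableSet_Tri
    intro z _
    nlinarith [sq_nonneg (π.F' z.1 - π.F' z.2)]
  rw [h1] at h3
  rw [h2] at h4
  unfold I0 I1
  constructor <;> linarith

lemma b2_nonneg : 0 ≤ π.b2 := by
  unfold b2
  apply intervalIntegral.integral_nonneg zero_le_one
  intro x _
  exact (mul_pos (π.F_pos _) (π.F_pos _)).le

lemma b3_nonneg : 0 ≤ π.b3 := by
  unfold b3
  apply intervalIntegral.integral_nonneg zero_le_one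
  intro x _
  exact (π.F_pos _).le

lemma side_nonneg (c d e : ℝ) : 
    0 ≤ c ^ 2 + (d ^ 2 + e ^ 2) * π.b1 + 2 * (d * e) * π.b2 + 2 * (c * (d + e)) * π.b3 := by
  rw [← side_int]
  apply intervalIntegral.integral_nonneg zero_le_one
  intro x _
  positivity

lemma _root_.Pool.Agent.Helper58.Robin.DD_nonneg (v : ℝ × ℝ → ℝ) : 0 ≤ DD v := by
  unfold DD
  apply setIntegral_nonneg measurableSet_Tri
  intro z _
  positivity

/-- the functional -/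
noncomputable def QT (ya yb yc : ℝ) (v : ℝ × ℝ → ℝ) : ℝ := 
  GG (ya ^ 2) (yb ^ 2) (yc ^ 2) v - 3 * (π.k * π.t) * BB ya yb yc v + 9 * π.k ^ 2 * DD v

/-- value at the plain transplant -/
lemma QT_one (ya yb yc : ℝ) : π.QT ya yb yc (π.trial 1 1 1) = 
    π.Phi * ((π.K - π.k) * (ya ^ 2 + yb ^ 2 + yc ^ 2 - 3) - 2 * π.K * (ya + yb + yc - 3)) := by
  unfold QT
  rw [GG_trial, BB_trial, DD_trial]
  have h1 := π.id_I
  have h2 := π.id_b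
  unfold b at h2
  linear_combination 3 * π.id_alpha0 + 6 * π.id_alpha1 + (ya ^ 2 + yb ^ 2 + yc ^ 2 - 3) * h1 - 
    3 * (ya + yb + yc - 3) * h2

/-- expansion -/
lemma QT_expand (ya yb yc fa fb fc : ℝ) (hf : fa + fb + fc = 0) : 
    π.QT ya yb yc (π.trial (1 + fa / 2) (1 + fb / 2) (1 + fc / 2)) = 
    π.QT ya yb yc (π.trial 1 1 1) + 
    (π.Phi * (π.K - π.k) * (ya ^ 2 * fa + yb ^ 2 * fb + yc ^ 2 * fc) + 
      4 * π.Phi * (π.t ^ 3 / ((1 - π.t ^ 2) * (1 - 4 * π.t ^ 2))) * (ya * fa + yb * fb + yc * fc)) + 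
    π.QT ya yb yc (π.trial fa fb fc) / 4 := by
  unfold QT
  simp only [GG_trial, BB_trial, DD_trial]
  have h1 := π.id_I
  have h2 := π.id_beta
  have h3 : fc = -fa - fb := by linarith
  subst h3
  linear_combination (ya ^ 2 * fa + yb ^ 2 * fb + yc ^ 2 * (-fa - fb)) * h1 + 
    3 * (ya * fa + yb * fb + yc * (-fa - fb)) * h2

/-- crude bound for the last term -/
lemma QT_le (ya yb yc fa fb fc μ y0 : ℝ) (hf : fa + fb + fc = 0) (hμ1 : 1 ≤ μ) 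
    (hμa : yb ^ 2 + yc ^ 2 - ya ^ 2 ≤ μ) (hμb : ya ^ 2 + yc ^ 2 - yb ^ 2 ≤ μ) 
    (hμc : ya ^ 2 + yb ^ 2 - yc ^ 2 ≤ μ) (hya : y0 ≤ ya) (hyb : y0 ≤ yb) (hyc : y0 ≤ yc) 
    (hy1 : y0 ≤ 1) :
    π.QT ya yb yc (π.trial fa fb fc) ≤ (fa ^ 2 + fb ^ 2 + fc ^ 2) * 
      (3 / 2 * μ * ((1 - π.t ^ 2) * π.t * (π.Sh - 3 * π.k)) + 2 * (μ - y0) * (π.Phi * π.K)) := by
  obtain ⟨hI1, hI2⟩ := π.I1_le
  have hκ : 0 < π.k * π.t := mul_pos π.hk π.ht0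
  have hI0 : 0 ≤ π.I0 := by linarith
  -- the pieces
  set Ga := (fb ^ 2 + fc ^ 2) * π.I0 - 2 * (fb * fc) * π.I1 with hGa
  set Gb := (fa ^ 2 + fc ^ 2) * π.I0 - 2 * (fa * fc) * π.I1 with hGb
  set Gc := (fa ^ 2 + fb ^ 2) * π.I0 - 2 * (fa * fb) * π.I1 with hGc
  have gen : ∀ x y : ℝ, 0 ≤ (x ^ 2 + y ^ 2) * π.I0 - 2 * (x * y) * π.I1 := by
    intro x y
    nlinarith [mul_nonneg (sq_nonneg (x - y)) (by linarith : 0 ≤ π.I0 + π.I1), 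
      mul_nonneg (sq_nonneg (x + y)) (by linarith : 0 ≤ π.I0 - π.I1)]
  have ga : 0 ≤ Ga := gen fb fc
  have gb : 0 ≤ Gb := gen fa fc
  have gc : 0 ≤ Gc := gen fa fb
  set Ba := fa ^ 2 + (fb ^ 2 + fc ^ 2) * π.b1 + 2 * (fb * fc) * π.b2 + 2 * (fa * (fb + fc)) * π.b3 with hBa
  set Bb := fb ^ 2 + (fa ^ 2 + fc ^ 2) * π.b1 + 2 * (fa * fc) * π.b2 + 2 * (fb * (fa + fc)) * π.b3 with hBb
  set Bc := fc ^ 2 + (fa ^ 2 + fb ^ 2) * π.b1 + 2 * (fa * fb) * π.b2 + 2 * (fc * (fa + fb)) * π.b3 with hBc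
  have ba : 0 ≤ Ba := π.side_nonneg fa fb fc
  have bb : 0 ≤ Bb := π.side_nonneg fb fa fc
  have bc : 0 ≤ Bc := π.side_nonneg fc fa fb
  have hD := DD_nonneg (π.trial fa fb fc)
  have hk2 : 0 ≤ 9 * π.k ^ 2 * DD (π.trial fa fb fc) := by positivity
  -- the equilateral identity
  have hE := π.QE fa fb fc
  have hG1 : GG 1 1 1 (π.trial fa fb fc) = (Ga + Gb + Gc) / 2 := by
    rw [GG_trial, hGa, hGb, hGc]; ring
  have hB1 : BB 1 1 1 (π.trial fa fb fc) = Ba + Bb + Bc := by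
    rw [BB_trial, hBa, hBb, hBc]; ring
  have hGT : GG (ya ^ 2) (yb ^ 2) (yc ^ 2) (π.trial fa fb fc) = 
      ((yb ^ 2 + yc ^ 2 - ya ^ 2) * Ga + (ya ^ 2 + yc ^ 2 - yb ^ 2) * Gb + 
        (ya ^ 2 + yb ^ 2 - yc ^ 2) * Gc) / 2 := by
    rw [GG_trial, hGa, hGb, hGc]; ring
  have hBT : BB ya yb yc (π.trial fa fb fc) = ya * Ba + yb * Bb + yc * Bc := by
    rw [BB_trial]
  have hsq : fa ^ 2 + fb ^ 2 + fc ^ 2 - fa * fb - fb * fc - fa * fc = 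
      3 / 2 * (fa ^ 2 + fb ^ 2 + fc ^ 2) := by
    have h3 : fc = -fa - fb := by linarith
    rw [h3]; ring
  rw [hG1, hB1, hsq] at hE
  set G := (Ga + Gb + Gc) / 2 with hG
  set B := Ba + Bb + Bc with hB
  set α := (1 - π.t ^ 2) * π.t * (π.Sh - 3 * π.k) with hα
  set S := fa ^ 2 + fb ^ 2 + fc ^ 2 with hS
  set M := 9 * π.k ^ 2 * DD (π.trial fa fb fc) with hM
  -- upper bound of `B`
  have hBle : 3 * (π.k * π.t) * B ≤ 2 * (π.Phi * π.K) * S := by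
    have h1 : B = (1 + 2 * π.b1 - π.b2 - 2 * π.b3) * S := by
      have h3 : fc = -fa - fb := by linarith
      rw [hB, hBa, hBb, hBc, hS, h3]; ring
    have h2 := π.id_b
    have h3 : 2 * (π.Phi * π.K) * S = 3 * (π.k * π.t) * (π.b * S) := by linear_combination (-3 * S) * h2
    rw [h1, h3]
    apply mul_le_mul_of_nonneg_left _ (by positivity)
    apply mul_le_mul_of_nonneg_right _ (by positivity)
    unfold b
    have h4 := π.b2_nonneg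
    have h5 := π.b3_nonneg
    linarith
  have hGT' : GG (ya ^ 2) (yb ^ 2) (yc ^ 2) (π.trial fa fb fc) ≤ μ * G := by
    rw [hGT, hG]
    have h1 := mul_le_mul_of_nonneg_right hμa ga
    have h2 := mul_le_mul_of_nonneg_right hμb gb
    have h3 := mul_le_mul_of_nonneg_right hμc gc
    linarith
  have hBT' : y0 * B ≤ BB ya yb yc (π.trial fa fb fc) := by
    rw [hBT, hB]
    have h1 := mul_le_mul_of_nonneg_right hya ba
    have h2 := mul_le_mul_of_nonneg_right hyb bb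
    have h3 := mul_le_mul_of_nonneg_right hyc bc
    linarith
  have hBT'' := mul_le_mul_of_nonneg_left hBT' (by positivity : 0 ≤ 3 * (π.k * π.t))
  have hB0 : 0 ≤ B := by rw [hB]; linarith
  have hG0 : 0 ≤ G := by rw [hG]; linarith
  have hκB : 0 ≤ 3 * (π.k * π.t) * B := by positivity
  -- `G ≤ 3/2 α S + 3κ B`
  have hGle : G ≤ 3 / 2 * α * S + 3 * (π.k * π.t) * B := by linarith
  unfold QT
  rw [← hM]
  have e1 : M = 3 / 2 * α * S - G + 3 * (π.k * π.t) * B := by linarith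
  have h1 : (μ - 1) * G ≤ (μ - 1) * (3 / 2 * α * S + 3 * (π.k * π.t) * B) := 
    mul_le_mul_of_nonneg_left hGle (by linarith)
  have h2 : (μ - y0) * (3 * (π.k * π.t) * B) ≤ (μ - y0) * (2 * (π.Phi * π.K) * S) := 
    mul_le_mul_of_nonneg_left hBle (by linarith)
  rw [e1]
  linarith

/-- **Case A.** -/
lemma caseA (σ : Shape) (ht : π.t ≤ 45 / 100) (hB : π.t ^ 2 * (1 + 3 * (σ.p * σ.W) ^ 2) ≤ 1) : 
    π.QT ((σ.u + σ.v) / 2) ((σ.W + σ.v) / 2) ((σ.W + σ.u) / 2) (π.trial 1 1 1) ≤ 0 := by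
  rw [QT_one]
  have h0 := π.ht0
  have h1 := σ.caseA (t := π.t) (by nlinarith) hB
  have h2 := π.k_lower ht
  have h3 := π.K_pos
  have h4 : 0 < 1 - 2 * π.t ^ 2 := by nlinarith [π.ht1, sq_nonneg π.t]
  have hX : ((σ.u + σ.v) / 2) ^ 2 + ((σ.W + σ.v) / 2) ^ 2 + ((σ.W + σ.u) / 2) ^ 2 - 3 = 
      3 * (σ.p - 1) * (σ.p + 1) + σ.S2 / 4 := by
    have h5 : σ.v = 3 * σ.p - σ.W - σ.u := by linarith [σ.hsum]
    unfold Shape.S2
    rw [h5]; ring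
  have hY : (σ.u + σ.v) / 2 + (σ.W + σ.v) / 2 + (σ.W + σ.u) / 2 - 3 = 3 * (σ.p - 1) := by
    linarith [σ.hsum]
  rw [hX, hY]
  have hp1 := σ.hp1
  have hS := σ.S2_nonneg
  have hX0 : 0 ≤ 3 * (σ.p - 1) * (σ.p + 1) + σ.S2 / 4 := by
    have : 0 ≤ (σ.p - 1) * (σ.p + 1) := mul_nonneg (by linarith) (by linarith)
    linarith
  apply mul_nonpos_of_nonneg_of_nonpos π.Phi_pos.le
  have h6 := mul_le_mul_of_nonneg_right h2 hX0
  have h7 : 2 * π.t ^ 2 / (1 - 2 * π.t ^ 2) * π.K * (3 * (σ.p - 1) * (σ.p + 1) + σ.S2 / 4) ≤ 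
      2 * π.K * (3 * (σ.p - 1)) := by
    have h8 : 2 * π.t ^ 2 / (1 - 2 * π.t ^ 2) * π.K * (3 * (σ.p - 1) * (σ.p + 1) + σ.S2 / 4) = 
        2 * π.K * (π.t ^ 2 * (3 * (σ.p - 1) * (σ.p + 1) + σ.S2 / 4) / (1 - 2 * π.t ^ 2)) := by
      field_simp
    rw [h8]
    apply mul_le_mul_of_nonneg_left _ (by positivity)
    rw [div_le_iff₀ h4]
    nlinarith
  linarith

lemma numC0 {p W : ℝ} (hp1 : 1 ≤ p) (hWp : p ≤ W) (hpW : p * W ≤ 1146 / 1000) : 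
    p ≤ 1071 / 1000 ∧ W - p ≤ 146 / 1000 := by
  constructor <;> nlinarith

lemma numC1 {fa fb fc : ℝ} (hf : fa + fb + fc = 0) (fb1 : fb ≤ fa) (fc1 : fc ≤ fa) : 
    -(2 * fa ^ 2) ≤ fb * fc ∧ -(2 * fa ^ 2) ≤ fa * fc ∧ -(2 * fa ^ 2) ≤ fa * fb := by
  have fa0 : 0 ≤ fa := by linarith
  have fb2 : -(2 * fa) ≤ fb := by linarith
  have fc2 : -(2 * fa) ≤ fc := by linarith
  have hfc' : fc = -fa - fb := by linarith
  refine ⟨?_, ?_, ?_⟩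
  · have h1 : 0 ≤ (fb + 2 * fa) * (fa - fb) := mul_nonneg (by linarith) (by linarith)
    rw [hfc']
    linarith
  · have h1 : 0 ≤ fa * (fc + 2 * fa) := mul_nonneg fa0 (by linarith)
    linarith
  · have h1 : 0 ≤ fa * (fb + 2 * fa) := mul_nonneg fa0 (by linarith)
    linarith

lemma numC2 {p W fa fb fc : ℝ} (hp1 : 1 ≤ p) (hpW : p * W ≤ 1146 / 1000)
    (hfa : fa = (W - p) / 2) (hfa1 : fa ≤ 73 / 1000) (hf : fa + fb + fc = 0) (fb1 : fb ≤ fa) (fc1 : fc ≤ fa) : 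
    (p - fb) ^ 2 + (p - fc) ^ 2 - (p - fa) ^ 2 ≤ 133 / 100 ∧ 
    (p - fa) ^ 2 + (p - fc) ^ 2 - (p - fb) ^ 2 ≤ 133 / 100 ∧ 
    (p - fa) ^ 2 + (p - fb) ^ 2 - (p - fc) ^ 2 ≤ 133 / 100 := by
  obtain ⟨hbc, hac, hab⟩ := numC1 hf fb1 fc1
  have fa0 : 0 ≤ fa := by linarith
  have hfa2 : fa ^ 2 ≤ 54 / 10000 := by nlinarith
  have hpfa : p ^ 2 + 4 * p * fa ≤ 1292 / 1000 := by
    have h1 : p ^ 2 + 4 * p * fa = 2 * (p * W) - p ^ 2 := by rw [hfa]; ring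
    have h2 : 1 ≤ p ^ 2 := one_le_pow₀ hp1
    linarith
  have hpfb : 4 * p * fb ≤ 4 * p * fa := mul_le_mul_of_nonneg_left fb1 (by linarith)
  have hpfc : 4 * p * fc ≤ 4 * p * fa := mul_le_mul_of_nonneg_left fc1 (by linarith)
  have hfc' : fc = -fa - fb := by linarith
  refine ⟨?_, ?_, ?_⟩
  · have h1 : (p - fb) ^ 2 + (p - fc) ^ 2 - (p - fa) ^ 2 = p ^ 2 + 4 * p * fa - 2 * (fb * fc) := by
      rw [hfc']; ring
    rw [h1]; linarith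
  · have h1 : (p - fa) ^ 2 + (p - fc) ^ 2 - (p - fb) ^ 2 = p ^ 2 + 4 * p * fb - 2 * (fa * fc) := by
      rw [hfc']; ring
    rw [h1]; linarith
  · have h1 : (p - fa) ^ 2 + (p - fb) ^ 2 - (p - fc) ^ 2 = p ^ 2 + 4 * p * fc - 2 * (fa * fb) := by
      rw [hfc']; ring
    rw [h1]; linarith

lemma numC3 {p fa fb fc : ℝ} (hp1 : 1 ≤ p) (hfa1 : fa ≤ 73 / 1000) 
    (hf : fa + fb + fc = 0) (fb1 : fb ≤ fa) (fc1 : fc ≤ fa) : 
    (p - fa) ^ 2 * fa + (p - fb) ^ 2 * fb + (p - fc) ^ 2 * fc ≤ -(19 / 10) * (fa ^ 2 + fb ^ 2 + fc ^ 2) := by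
  have h1 : (p - fa) ^ 2 * fa + (p - fb) ^ 2 * fb + (p - fc) ^ 2 * fc = 
      p ^ 2 * (fa + fb + fc) - 2 * p * (fa ^ 2 + fb ^ 2 + fc ^ 2) + (fa ^ 3 + fb ^ 3 + fc ^ 3) := by ring
  have h2 : fa ^ 3 + fb ^ 3 + fc ^ 3 ≤ fa * (fa ^ 2 + fb ^ 2 + fc ^ 2) := by
    have h3 := mul_nonneg (sq_nonneg fb) (sub_nonneg.mpr fb1)
    have h4 := mul_nonneg (sq_nonneg fc) (sub_nonneg.mpr fc1)
    linarith
  have hS : 0 ≤ fa ^ 2 + fb ^ 2 + fc ^ 2 := by positivity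
  have h3 : fa * (fa ^ 2 + fb ^ 2 + fc ^ 2) ≤ 73 / 1000 * (fa ^ 2 + fb ^ 2 + fc ^ 2) := 
    mul_le_mul_of_nonneg_right hfa1 hS
  have h4 : 1 * (fa ^ 2 + fb ^ 2 + fc ^ 2) ≤ p * (fa ^ 2 + fb ^ 2 + fc ^ 2) := 
    mul_le_mul_of_nonneg_right hp1 hS
  rw [h1, hf]
  linarith

lemma alpha_le (ht : 45 / 100 ≤ π.t) : 
    (1 - π.t ^ 2) * π.t * (π.Sh - 3 * π.k) ≤ 19 / 100 * (π.Phi * π.K) := by
  have h0 := π.ht0
  have hK := π.K_pos
  have hΦ := π.Phi_pos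
  have hQ := π.hQ
  have hP := π.hP
  have h1 := π.Sh_le
  have h2 : (1 - π.t ^ 2) * π.t * (π.Sh - 3 * π.k) ≤ (1 - π.t ^ 2) * π.t * (9 * π.K) := by
    apply mul_le_mul_of_nonneg_left _ (by positivity)
    have := π.hk
    linarith
  have h3 : 9 * ((1 - π.t ^ 2) * (π.t / (1 - 4 * π.t ^ 2))) ≤ π.Phi := by
    unfold Phi
    have h4 : (1 - π.t ^ 2) * (4 * π.t / (1 - 4 * π.t ^ 2)) ≤ 
        (1 - π.t ^ 2) * (π.k + 4 * π.t / (1 - 4 * π.t ^ 2)) := by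
      apply mul_le_mul_of_nonneg_left _ hP.le
      have := π.hk
      linarith
    have h5 : 9 * ((1 - π.t ^ 2) * (π.t / (1 - 4 * π.t ^ 2))) = 
        9 / 4 * ((1 - π.t ^ 2) * (4 * π.t / (1 - 4 * π.t ^ 2))) := by ring
    rw [h5]
    linarith
  have h4 : (1 - π.t ^ 2) * π.t * (9 * π.K) = 
      9 * ((1 - π.t ^ 2) * (π.t / (1 - 4 * π.t ^ 2))) * π.K * (1 - 4 * π.t ^ 2) := by
    have h5 : π.t / (1 - 4 * π.t ^ 2) * (1 - 4 * π.t ^ 2) = π.t := div_mul_cancel₀ _ hQ.ne'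
    linear_combination (-9 * (1 - π.t ^ 2) * π.K) * h5
  have h5 : 9 * ((1 - π.t ^ 2) * (π.t / (1 - 4 * π.t ^ 2))) * π.K * (1 - 4 * π.t ^ 2) ≤ 
      π.Phi * π.K * (1 - 4 * π.t ^ 2) := by
    apply mul_le_mul_of_nonneg_right _ hQ.le
    exact mul_le_mul_of_nonneg_right h3 hK.le
  have h6 : π.Phi * π.K * (1 - 4 * π.t ^ 2) ≤ π.Phi * π.K * (19 / 100) := by
    apply mul_le_mul_of_nonneg_left _ (by positivity)
    nlinarith
  linarith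

lemma t3_le (ht : 45 / 100 ≤ π.t) : 
    68 / 100 * π.K ≤ 4 * (π.t ^ 3 / ((1 - π.t ^ 2) * (1 - 4 * π.t ^ 2))) := by
  have h0 := π.ht0
  have hQ := π.hQ
  have hP := π.hP
  unfold K
  rw [← mul_div_assoc, ← mul_div_assoc]
  apply div_le_div_of_nonneg_right _ (by positivity)
  have h1 : (2025 / 10000 : ℝ) ≤ π.t ^ 2 := by nlinarith
  have h2 : 0 ≤ π.t * (π.t ^ 2 - 2025 / 10000) := mul_nonneg h0.le (by linarith)
  nlinarith

/-- **Case C.** -/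
lemma caseC (σ : Shape) (ht : 45 / 100 ≤ π.t) (hB : π.t ^ 2 * (1 + 3 * (σ.p * σ.W) ^ 2) ≤ 1) : 
    π.QT ((σ.u + σ.v) / 2) ((σ.W + σ.v) / 2) ((σ.W + σ.u) / 2) (π.trial (1 + (σ.W - σ.p) / 2 / 2) 
      (1 + (σ.u - σ.p) / 2 / 2) (1 + (σ.v - σ.p) / 2 / 2)) ≤ 0 := by
  have hp := σ.hp0
  have hp1 := σ.hp1
  have hWp := σ.hpW
  have hsum := σ.hsum
  have huW := σ.huW
  have hvW := σ.hvW
  have hK := π.K_pos
  have hΦ := π.Phi_pos
  -- numerical consequences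
  have hpW : σ.p * σ.W ≤ 1146 / 1000 := by
    by_contra hcon
    push Not at hcon
    have h1 : (1146 / 1000 : ℝ) ^ 2 < (σ.p * σ.W) ^ 2 := pow_lt_pow_left₀ hcon (by norm_num) (by norm_num)
    have h2 : (2025 / 10000 : ℝ) ≤ π.t ^ 2 := by nlinarith
    nlinarith
  obtain ⟨hp3, hω⟩ := numC0 hp1 hWp hpW
  have e1 := σ.S2_eq
  have e2 : σ.S2 = 4 * (((σ.W - σ.p) / 2) ^ 2 + ((σ.u - σ.p) / 2) ^ 2 + ((σ.v - σ.p) / 2) ^ 2) := by
    unfold Shape.S2; ring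
  rw [e2] at e1
  have hya : (σ.u + σ.v) / 2 = σ.p - (σ.W - σ.p) / 2 := by linarith
  have hyb : (σ.W + σ.v) / 2 = σ.p - (σ.u - σ.p) / 2 := by linarith
  have hyc : (σ.W + σ.u) / 2 = σ.p - (σ.v - σ.p) / 2 := by linarith
  rw [hya, hyb, hyc]
  obtain ⟨fa, hfa⟩ : ∃ x, x = (σ.W - σ.p) / 2 := ⟨_, rfl⟩
  obtain ⟨fb, hfb⟩ : ∃ x, x = (σ.u - σ.p) / 2 := ⟨_, rfl⟩
  obtain ⟨fc, hfc⟩ : ∃ x, x = (σ.v - σ.p) / 2 := ⟨_, rfl⟩
  have hf : fa + fb + fc = 0 := by rw [hfa, hfb, hfc]; linarith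
  have fa0 : 0 ≤ fa := by rw [hfa]; linarith
  have fa1 : fa ≤ 73 / 1000 := by rw [hfa]; linarith
  have fb1 : fb ≤ fa := by rw [hfa, hfb]; linarith
  have fc1 : fc ≤ fa := by rw [hfa, hfc]; linarith
  rw [← hfa, ← hfb, ← hfc] at e1 ⊢
  obtain ⟨m1, m2, m3⟩ := numC2 hp1 hpW hfa fa1 hf fb1 fc1
  have hxf := numC3 hp1 fa1 hf fb1 fc1
  rw [QT_expand π _ _ _ _ _ _ hf, QT_one]
  have hT2 := π.QT_le (σ.p - fa) (σ.p - fb) (σ.p - fc) fa fb fc (133 / 100) (92 / 100) hf (by norm_num) 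
    m1 m2 m3 (by linarith) (by linarith) (by linarith) (by norm_num)
  generalize σ.p = p at *
  generalize σ.W = W at *
  obtain ⟨S, hS⟩ : ∃ x, x = fa ^ 2 + fb ^ 2 + fc ^ 2 := ⟨_, rfl⟩
  have hS0 : 0 ≤ S := by rw [hS]; positivity
  rw [← hS] at e1 hT2 hxf
  have hX : (p - fa) ^ 2 + (p - fb) ^ 2 + (p - fc) ^ 2 - 3 = 3 * (p ^ 2 - 1) + S := by
    rw [hS]
    linear_combination (-2 * p) * hf
  have hY : (p - fa) + (p - fb) + (p - fc) - 3 = 3 * (p - 1) := by linarith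
  have hyf : (p - fa) * fa + (p - fb) * fb + (p - fc) * fc = -S := by
    rw [hS]
    linear_combination p * hf
  rw [hX, hY, hyf]
  have hα := π.alpha_le ht
  have hk := π.k_upper ht
  have ht3 := π.t3_le ht
  have hk0 := π.hk
  generalize (1 - π.t ^ 2) * π.t * (π.Sh - 3 * π.k) = α at *
  generalize π.t ^ 3 / ((1 - π.t ^ 2) * (1 - 4 * π.t ^ 2)) = β at *
  generalize π.QT (p - fa) (p - fb) (p - fc) (π.trial fa fb fc) = T2 at *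
  generalize (p - fa) ^ 2 * fa + (p - fb) ^ 2 * fb + (p - fc) ^ 2 * fc = T1 at *
  have e3 : 0 ≤ p * (W - p) ^ 3 := mul_nonneg hp.le (pow_nonneg (by linarith) 3)
  clear hB hX hY hyf hS m1 m2 m3 hfa hfb hfc hya hyb hyc
  generalize π.Phi = Φ at *
  generalize π.K = K at *
  generalize π.k = k at *
  -- final estimate
  have hp4 : p - 1 ≤ 573 / 1000 * S := by
    have h3 : p ^ 4 - 1 ≤ 2 * S * (p * W) := by linarith
    have h4 : 2 * S * (p * W) ≤ 2 * S * (1146 / 1000) := mul_le_mul_of_nonneg_left hpW (by linarith)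
    have h5 : 4 * (p - 1) ≤ p ^ 4 - 1 := by
      have h6 : 0 ≤ (p - 1) ^ 2 * (p ^ 2 + 2 * p + 3) := by positivity
      linarith [show (p - 1) ^ 2 * (p ^ 2 + 2 * p + 3) = p ^ 4 - 1 - 4 * (p - 1) by ring]
    linarith
  have hp5 : (p - 1) ^ 2 ≤ 71 / 1000 * (573 / 1000 * S) := by
    have h1 : 0 ≤ (p - 1) * (71 / 1000 - (p - 1)) := mul_nonneg (by linarith) (by linarith)
    linarith
  obtain ⟨Z, hZ⟩ : ∃ x, x = Φ * K := ⟨_, rfl⟩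
  have hZ0 : 0 < Z := by rw [hZ]; positivity
  have hZS : 0 ≤ Z * S := by positivity
  have hIpos : 55 / 100 * Z ≤ Φ * (K - k) := by
    rw [hZ]
    have := mul_le_mul_of_nonneg_left hk hΦ.le
    linarith
  have hT1a : Φ * (K - k) * T1 ≤ -(1045 / 1000) * (Z * S) := by
    have h1 : Φ * (K - k) * T1 ≤ Φ * (K - k) * (-(19 / 10) * S) := by
      apply mul_le_mul_of_nonneg_left hxf
      linarith
    have h2 : 55 / 100 * Z * S ≤ Φ * (K - k) * S := mul_le_mul_of_nonneg_right hIpos hS0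
    linarith
  have hT1b : 4 * Φ * β * (-S) ≤ -(68 / 100) * (Z * S) := by
    have h1 := mul_le_mul_of_nonneg_left ht3 hΦ.le
    have h2 := mul_le_mul_of_nonneg_right h1 hS0
    rw [hZ]
    linarith
  have hT0 : Φ * ((K - k) * (3 * (p ^ 2 - 1) + S) - 2 * K * (3 * (p - 1))) ≤ 
      Z * (3 * (p - 1) ^ 2 + S) := by
    have h0 : 1 ≤ p ^ 2 := one_le_pow₀ hp1
    have h1 : 0 ≤ 3 * (p ^ 2 - 1) + S := by linarith
    have h2 : (K - k) * (3 * (p ^ 2 - 1) + S) ≤ K * (3 * (p ^ 2 - 1) + S) := by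
      apply mul_le_mul_of_nonneg_right _ h1
      linarith
    have h3 := mul_le_mul_of_nonneg_left h2 hΦ.le
    rw [hZ]
    linarith
  have hT2' : T2 ≤ 12 / 10 * (Z * S) := by
    refine hT2.trans ?_
    rw [← hZ]
    rw [← hZ] at hα
    have h1 : 3 / 2 * (133 / 100) * α + 2 * (133 / 100 - 92 / 100) * Z ≤ 12 / 10 * Z := by
      linarith
    have h2 := mul_le_mul_of_nonneg_left h1 hS0
    linarith
  have hfin : Z * (3 * (p - 1) ^ 2 + S) ≤ Z * (113 / 100 * S) := by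
    apply mul_le_mul_of_nonneg_left _ hZ0.le
    linarith
  linarith

end Par

end Pool.Agent.Helper58.Robin
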