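import Pool.Agent.Helper58.Robin.Ground

/-!
# The integrals needed for the trial functions
-/

open MeasureTheory Set

namespace Pool.Agent.Helper58.Robin

lemma int_quad {κ : ℝ} (hκ : κ ≠ 0) (α β γ : ℝ) : 
    ∫ x in (0 : ℝ)..1, (α * (Real.sinh (κ * x) * Real.cosh (κ * x)) + β * Real.sinh (κ * x) ^ 2 + 
      γ * Real.cosh (κ * x) ^ 2) = α * (Real.sinh κ ^ 2 / (2 * κ)) + 
      β * (Real.sinh κ * Real.cosh κ / (2 * κ) - 1 / 2) + 
      γ * (Real.sinh κ * Real.cosh κ / (2 * κ) + 1 / 2) := by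
  have h1 : ∀ x : ℝ, HasDerivAt (fun x => α * (Real.sinh (κ * x) ^ 2 / (2 * κ)) + 
      β * (Real.sinh (κ * x) * Real.cosh (κ * x) / (2 * κ) - x / 2) + 
      γ * (Real.sinh (κ * x) * Real.cosh (κ * x) / (2 * κ) + x / 2))
      (α * (Real.sinh (κ * x) * Real.cosh (κ * x)) + β * Real.sinh (κ * x) ^ 2 + 
      γ * Real.cosh (κ * x) ^ 2) x := by
    intro x
    have h0 : HasDerivAt (fun x => κ * x) κ x := by
      simpa using (hasDerivAt_id x).const_mul κ
    have h2 := (((h0.sinh.pow 2).div_const (2 * κ)).const_mul α).add 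
      ((((h0.sinh.mul h0.cosh).div_const (2 * κ)).sub ((hasDerivAt_id x).div_const 2)).const_mul β)
    have h3 := h2.add ((((h0.sinh.mul h0.cosh).div_const (2 * κ)).add 
      ((hasDerivAt_id x).div_const 2)).const_mul γ)
    refine h3.congr_deriv ?_
    have h4 := Real.cosh_sq (κ * x)
    simp only [Nat.cast_ofNat, Nat.add_one_sub_one, pow_one]
    field_simp
    rw [h4]
    ring
  rw [intervalIntegral.integral_eq_sub_of_hasDerivAt (fun x _ => h1 x)]
  · simp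
  · exact (by fun_prop : Continuous _).intervalIntegrable _ _

lemma int_quad_w {κ : ℝ} (hκ : κ ≠ 0) (α β γ : ℝ) : 
    ∫ x in (0 : ℝ)..1, (1 - x) * (α * (Real.sinh (κ * x) * Real.cosh (κ * x)) + 
      β * Real.sinh (κ * x) ^ 2 + γ * Real.cosh (κ * x) ^ 2) = 
      α * ((Real.sinh κ * Real.cosh κ / (2 * κ) - 1 / 2) / (2 * κ)) + 
      β * (Real.sinh κ ^ 2 / (4 * κ ^ 2) - 1 / 4) + 
      γ * (Real.sinh κ ^ 2 / (4 * κ ^ 2) + 1 / 4) := by
  have h1 : ∀ x : ℝ, HasDerivAt (fun x => (1 - x) * (α * (Real.sinh (κ * x) ^ 2 / (2 * κ)) + 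
      β * (Real.sinh (κ * x) * Real.cosh (κ * x) / (2 * κ) - x / 2) + 
      γ * (Real.sinh (κ * x) * Real.cosh (κ * x) / (2 * κ) + x / 2)) + 
      (α * ((Real.sinh (κ * x) * Real.cosh (κ * x) / (2 * κ) - x / 2) / (2 * κ)) + 
      β * (Real.sinh (κ * x) ^ 2 / (4 * κ ^ 2) - x ^ 2 / 4) + 
      γ * (Real.sinh (κ * x) ^ 2 / (4 * κ ^ 2) + x ^ 2 / 4)))
      ((1 - x) * (α * (Real.sinh (κ * x) * Real.cosh (κ * x)) + β * Real.sinh (κ * x) ^ 2 + 
      γ * Real.cosh (κ * x) ^ 2)) x := by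
    intro x
    have h0 : HasDerivAt (fun x => κ * x) κ x := by
      simpa using (hasDerivAt_id x).const_mul κ
    have hid := hasDerivAt_id x
    have h2 := (((h0.sinh.pow 2).div_const (2 * κ)).const_mul α).add 
      ((((h0.sinh.mul h0.cosh).div_const (2 * κ)).sub (hid.div_const 2)).const_mul β)
    have h3 := h2.add ((((h0.sinh.mul h0.cosh).div_const (2 * κ)).add 
      (hid.div_const 2)).const_mul γ)
    have h4 := (hid.const_sub 1).mul h3
    have h5 := ((((h0.sinh.mul h0.cosh).div_const (2 * κ)).sub (hid.div_const 2)).div_const 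
      (2 * κ)).const_mul α
    have h6 := (((h0.sinh.pow 2).div_const (4 * κ ^ 2)).sub ((hid.pow 2).div_const 4)).const_mul β
    have h7 := (((h0.sinh.pow 2).div_const (4 * κ ^ 2)).add ((hid.pow 2).div_const 4)).const_mul γ
    refine (h4.add ((h5.add h6).add h7)).congr_deriv ?_
    have h8 := Real.cosh_sq (κ * x)
    simp only [Nat.cast_ofNat, Nat.add_one_sub_one, pow_one, id, Pi.add_apply, Pi.sub_apply, 
      Pi.mul_apply, Pi.pow_apply]
    field_simp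
    rw [h8]
    ring
  rw [intervalIntegral.integral_eq_sub_of_hasDerivAt (fun x _ => h1 x)]
  · simp
  · exact (by fun_prop : Continuous _).intervalIntegrable _ _

namespace Par

variable (π : Par)

/-- `sinh (3k)` -/
noncomputable def Sh : ℝ := Real.sinh (3 * π.k)
/-- `cosh (3k)` -/
noncomputable def Ch : ℝ := Real.cosh (3 * π.k)

lemma Ch_sq : π.Ch ^ 2 = π.Sh ^ 2 + 1 := Real.cosh_sq _

lemma hk3 : 3 * π.k ≠ 0 := by have := π.hk; positivity

lemma int_F_sq : ∫ x in (0 : ℝ)..1, π.F x ^ 2 = 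
    ((1 + π.t ^ 2) * (π.Sh * π.Ch) - 2 * π.t * π.Sh ^ 2) / (6 * π.k) + (1 - π.t ^ 2) / 2 := by
  have h := int_quad π.hk3 (-2 * π.t) (π.t ^ 2) 1
  have e : ∀ x, π.F x ^ 2 = -2 * π.t * (Real.sinh (3 * π.k * x) * Real.cosh (3 * π.k * x)) + 
      π.t ^ 2 * Real.sinh (3 * π.k * x) ^ 2 + 1 * Real.cosh (3 * π.k * x) ^ 2 := by
    intro x; unfold F; ring
  simp only [e]
  rw [h]
  unfold Sh Ch
  have := π.hk.ne'
  field_simp
  ring

lemma int_F_rev : ∫ x in (0 : ℝ)..1, π.F x * π.F (1 - x) = 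
    (1 - π.t ^ 2) * π.Sh / (6 * π.k) + (π.Ch - 2 * π.t * π.Sh + π.t ^ 2 * π.Ch) / 2 := by
  have h := int_quad π.hk3 (-(π.Sh - π.t * π.Ch) - π.t * (π.Ch - π.t * π.Sh)) 
    (π.t * (π.Sh - π.t * π.Ch)) (π.Ch - π.t * π.Sh)
  have e : ∀ x, π.F x * π.F (1 - x) = (-(π.Sh - π.t * π.Ch) - π.t * (π.Ch - π.t * π.Sh)) * 
      (Real.sinh (3 * π.k * x) * Real.cosh (3 * π.k * x)) + 
      (π.t * (π.Sh - π.t * π.Ch)) * Real.sinh (3 * π.k * x) ^ 2 + 
      (π.Ch - π.t * π.Sh) * Real.cosh (3 * π.k * x) ^ 2 := by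
    intro x; rw [F_one_sub]; unfold F Sh Ch; ring
  simp only [e]
  rw [h]
  have h1 := π.Ch_sq
  unfold Sh Ch at *
  have := π.hk.ne'
  field_simp
  ring_nf
  ring_nf at h1
  generalize Real.sinh (π.k * 3) = S at *
  generalize Real.cosh (π.k * 3) = C at *
  have h2 : C ^ 3 = C * (1 + S ^ 2) := by rw [← h1]; ring
  simp only [h1, h2]
  ring

lemma int_F : ∫ x in (0 : ℝ)..1, π.F x = (π.Sh - π.t * (π.Ch - 1)) / (3 * π.k) := by
  have h1 : ∀ x : ℝ, HasDerivAt (fun x => (Real.sinh (3 * π.k * x) - π.t * Real.cosh (3 * π.k * x)) / 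
      (3 * π.k)) (π.F x) x := by
    intro x
    have h0 : HasDerivAt (fun x => 3 * π.k * x) (3 * π.k) x := by
      simpa using (hasDerivAt_id x).const_mul (3 * π.k)
    refine ((h0.sinh.sub (h0.cosh.const_mul π.t)).div_const (3 * π.k)).congr_deriv ?_
    unfold F
    have := π.hk.ne'
    field_simp
  rw [intervalIntegral.integral_eq_sub_of_hasDerivAt (fun x _ => h1 x)]
  · unfold Sh Ch
    simp only [mul_one, mul_zero, Real.sinh_zero, Real.cosh_zero]
    ring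
  · exact π.continuous_F.intervalIntegrable _ _

lemma int_F'_rev : ∫ x in (0 : ℝ)..1, π.F' x * π.F (1 - x) = 
    3 * π.k / 2 * ((1 + π.t ^ 2) * π.Sh - 2 * π.t * π.Ch) := by
  have h := int_quad π.hk3 (3 * π.k * ((π.Ch - π.t * π.Sh) + π.t * (π.Sh - π.t * π.Ch)))
    (-(3 * π.k * (π.Sh - π.t * π.Ch))) (-(3 * π.k * π.t * (π.Ch - π.t * π.Sh)))
  have e : ∀ x, π.F' x * π.F (1 - x) = (3 * π.k * ((π.Ch - π.t * π.Sh) + π.t * (π.Sh - π.t * π.Ch))) * 
      (Real.sinh (3 * π.k * x) * Real.cosh (3 * π.k * x)) + 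
      (-(3 * π.k * (π.Sh - π.t * π.Ch))) * Real.sinh (3 * π.k * x) ^ 2 + 
      (-(3 * π.k * π.t * (π.Ch - π.t * π.Sh))) * Real.cosh (3 * π.k * x) ^ 2 := by
    intro x; rw [F_one_sub]; unfold F' Sh Ch; ring
  simp only [e]
  rw [h]
  unfold Sh Ch
  have := π.hk.ne'
  field_simp
  ring

/-- `∫ F'(s)²` over the triangle -/
lemma I0_eq : ∫ z in Tri, π.F' z.1 ^ 2 = 
    ((1 + π.t ^ 2) * π.Sh ^ 2 - 2 * π.t * (π.Sh * π.Ch)) / 4 + 3 / 2 * (π.k * π.t) - 
      9 / 4 * π.k ^ 2 * (1 - π.t ^ 2) := by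
  rw [integral_Tri_fst (f := fun x => π.F' x ^ 2) (by fun_prop)]
  have h := int_quad_w π.hk3 (9 * π.k ^ 2 * (-2 * π.t)) (9 * π.k ^ 2) (9 * π.k ^ 2 * π.t ^ 2)
  have e : ∀ x, π.F' x ^ 2 = 9 * π.k ^ 2 * (-2 * π.t) * (Real.sinh (3 * π.k * x) * Real.cosh (3 * π.k * x)) + 
      9 * π.k ^ 2 * Real.sinh (3 * π.k * x) ^ 2 + 9 * π.k ^ 2 * π.t ^ 2 * Real.cosh (3 * π.k * x) ^ 2 := by
    intro x; unfold F'; ring
  simp only [e]
  rw [h]
  unfold Sh Ch
  have := π.hk.ne'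
  field_simp
  ring

/-- `∫ F(s)²` over the triangle -/
lemma D0_eq : ∫ z in Tri, π.F z.1 ^ 2 = 
    ((1 + π.t ^ 2) * π.Sh ^ 2 - 2 * π.t * (π.Sh * π.Ch) + 6 * π.k * π.t) / (36 * π.k ^ 2) + 
      (1 - π.t ^ 2) / 4 := by
  rw [integral_Tri_fst (f := fun x => π.F x ^ 2) (by fun_prop)]
  have h := int_quad_w π.hk3 (-2 * π.t) (π.t ^ 2) 1
  have e : ∀ x, π.F x ^ 2 = -2 * π.t * (Real.sinh (3 * π.k * x) * Real.cosh (3 * π.k * x)) + 
      π.t ^ 2 * Real.sinh (3 * π.k * x) ^ 2 + 1 * Real.cosh (3 * π.k * x) ^ 2 := by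
    intro x; unfold F; ring
  simp only [e]
  rw [h]
  unfold Sh Ch
  have := π.hk.ne'
  field_simp
  ring

/-- `∫ F'(s) F'(t)` over the triangle -/
lemma I1_eq : ∫ z in Tri, π.F' z.1 * π.F' z.2 = 
    3 * π.k / 2 * ((1 + π.t ^ 2) * π.Sh - 2 * π.t * π.Ch) - (π.Ch - π.t * π.Sh - 1) := by
  rw [integral_Tri' (f := fun z => π.F' z.1 * π.F' z.2) (by fun_prop)]
  have h1 : ∀ s : ℝ, ∫ t in (0 : ℝ)..(1 - s), π.F' s * π.F' t = π.F' s * π.F (1 - s) - π.F' s := by
    intro s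
    rw [intervalIntegral.integral_const_mul, 
      intervalIntegral.integral_eq_sub_of_hasDerivAt (fun x _ => π.hasDerivAt_F x) 
      (π.continuous_F'.intervalIntegrable _ _), π.F_zero]
    ring
  simp only [h1]
  rw [intervalIntegral.integral_sub 
    ((by fun_prop : Continuous (fun s => π.F' s * π.F (1 - s))).intervalIntegrable _ _) 
    (π.continuous_F'.intervalIntegrable _ _), int_F'_rev, 
    intervalIntegral.integral_eq_sub_of_hasDerivAt (fun x _ => π.hasDerivAt_F x) 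
      (π.continuous_F'.intervalIntegrable _ _), π.F_zero]
  have : π.F 1 = π.Ch - π.t * π.Sh := by unfold F Ch Sh; simp
  rw [this]

/-- `∫ F(s) F(t)` over the triangle -/
lemma D1_eq : ∫ z in Tri, π.F z.1 * π.F z.2 = 
    (3 * π.k / 2 * ((1 + π.t ^ 2) * π.Sh - 2 * π.t * π.Ch) + π.t * (π.Sh - π.t * (π.Ch - 1))) / 
      (9 * π.k ^ 2) := by
  have hk := π.hk.ne'
  rw [integral_Tri' (f := fun z => π.F z.1 * π.F z.2) (by fun_prop)]
  have h1 : ∀ s : ℝ, ∫ t in (0 : ℝ)..(1 - s), π.F s * π.F t = 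
      (π.F s * π.F' (1 - s) + 3 * π.k * π.t * π.F s) / (9 * π.k ^ 2) := by
    intro s
    have h2 : ∀ x, HasDerivAt (fun x => π.F' x / (9 * π.k ^ 2)) (π.F x) x := by
      intro x
      refine ((π.hasDerivAt_F' x).div_const (9 * π.k ^ 2)).congr_deriv ?_
      field_simp
    rw [intervalIntegral.integral_const_mul, 
      intervalIntegral.integral_eq_sub_of_hasDerivAt (fun x _ => h2 x) 
      (π.continuous_F.intervalIntegrable _ _), π.F'_zero]
    field_simp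
    ring
  simp only [h1]
  rw [intervalIntegral.integral_div, intervalIntegral.integral_add 
    ((by fun_prop : Continuous (fun s => π.F s * π.F' (1 - s))).intervalIntegrable _ _) 
    ((by fun_prop : Continuous (fun s => 3 * π.k * π.t * π.F s)).intervalIntegrable _ _), 
    intervalIntegral.integral_const_mul, int_F]
  have h3 := intervalIntegral.integral_comp_sub_left (fun x => π.F' x * π.F (1 - x)) 
    (a := 0) (b := 1) 1
  simp only [sub_self, sub_zero, sub_sub_cancel] at h3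
  have h4 : ∫ x in (0 : ℝ)..1, π.F x * π.F' (1 - x) = 
      3 * π.k / 2 * ((1 + π.t ^ 2) * π.Sh - 2 * π.t * π.Ch) := by
    rw [← int_F'_rev, ← h3]
    apply intervalIntegral.integral_congr
    intro x _
    show π.F x * π.F' (1 - x) = π.F' (1 - x) * π.F x
    ring
  rw [h4]
  field_simp

end Par

end Pool.Agent.Helper58.Robin
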