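import Pool.Agent.Helper58.Robin.CaseAC

/-!
# The corner trial function, positivity and boundedness from below
-/

open MeasureTheory Set

namespace Pool.Agent.Helper58.Robin

lemma volume_Tri_pos : 0 < volume Tri := by
  rw [pos_iff_ne_zero]
  intro h0
  have h1 := integral_Tri (f := fun _ => (1 : ℝ)) continuous_const
  have h2 : volume.restrict Tri = 0 := Measure.restrict_eq_zero.mpr h0
  rw [h2, integral_zero_measure] at h1
  simp only [intervalIntegral.integral_const, sub_zero, smul_eq_mul, mul_one] at h1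
  rw [intervalIntegral.integral_sub intervalIntegrable_const (by simp), 
    intervalIntegral.integral_const, integral_id] at h1
  norm_num at h1

lemma DD_pos {v : ℝ × ℝ → ℝ} (hv : Continuous v) (h0 : ∀ z, v z ≠ 0) : 0 < DD v := by
  unfold DD
  rw [setIntegral_pos_iff_support_of_nonneg_ae]
  · have : (Function.support fun x => v x ^ 2) ∩ Tri = Tri := by
      apply inter_eq_right.mpr
      intro z _
      exact pow_ne_zero 2 (h0 z)
    rw [this]
    exact volume_Tri_pos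
  · filter_upwards with z
    exact sq_nonneg (v z)
  · exact integrableOn_Tri (by fun_prop)

lemma BB_hyp_nonneg (v : ℝ × ℝ → ℝ) : 0 ≤ ∫ τ in (0 : ℝ)..1, v (τ, 1 - τ) ^ 2 := 
  intervalIntegral.integral_nonneg zero_le_one (fun x _ => sq_nonneg _)

/-- the corner function -/
noncomputable def corner (ξ η : ℝ) (z : ℝ × ℝ) : ℝ := Real.exp (ξ * z.1 + η * z.2)

lemma contDiff_corner (ξ η : ℝ) : ContDiff ℝ 1 (corner ξ η) := by unfold corner; fun_prop

lemma hasDerivAt_corner_fst (ξ η s t : ℝ) : 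
    HasDerivAt (fun s => corner ξ η (s, t)) (ξ * corner ξ η (s, t)) s := by
  unfold corner
  have h1 : HasDerivAt (fun s => ξ * s + η * t) ξ s := by
    simpa using ((hasDerivAt_id s).const_mul ξ).add_const (η * t)
  exact h1.exp.congr_deriv (by ring)

lemma hasDerivAt_corner_snd (ξ η s t : ℝ) : 
    HasDerivAt (fun t => corner ξ η (s, t)) (η * corner ξ η (s, t)) t := by
  unfold corner
  have h1 : HasDerivAt (fun t => ξ * s + η * t) η t := by
    simpa using ((hasDerivAt_id t).const_mul η).const_add (ξ * s)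
  exact h1.exp.congr_deriv (by ring)

lemma ps_corner (ξ η : ℝ) (z : ℝ × ℝ) : ps (corner ξ η) z = ξ * corner ξ η z := 
  (hasDerivAt_ps (contDiff_corner ξ η) z.1 z.2).unique (hasDerivAt_corner_fst ξ η z.1 z.2)

lemma pt_corner (ξ η : ℝ) (z : ℝ × ℝ) : pt (corner ξ η) z = η * corner ξ η z := 
  (hasDerivAt_pt (contDiff_corner ξ η) z.1 z.2).unique (hasDerivAt_corner_snd ξ η z.1 z.2)

/-- **Case B.** -/
lemma Par.caseB (π : Par) (σ : Shape) (hB : 1 ≤ π.t ^ 2 * (1 + 3 * (σ.p * σ.W) ^ 2)) : 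
    ∃ ξ η, π.QT ((σ.u + σ.v) / 2) ((σ.W + σ.v) / 2) ((σ.W + σ.u) / 2) (corner ξ η) ≤ 0 := by
  obtain ⟨κ, hκ⟩ : ∃ x, x = π.k * π.t := ⟨_, rfl⟩
  have hκ0 : 0 < κ := by rw [hκ]; exact mul_pos π.hk π.ht0
  obtain ⟨ya, hya⟩ : ∃ x, x = (σ.u + σ.v) / 2 := ⟨_, rfl⟩
  obtain ⟨yb, hyb⟩ : ∃ x, x = (σ.W + σ.v) / 2 := ⟨_, rfl⟩
  obtain ⟨yc, hyc⟩ : ∃ x, x = (σ.W + σ.u) / 2 := ⟨_, rfl⟩
  have hu := σ.hu
  have hv := σ.hv
  have hW := σ.hW
  have hp := σ.hp0
  have hsum := σ.hsum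
  have hprod := σ.hprod
  have hy0 : 0 ≤ ya + yb + yc := by rw [hya, hyb, hyc]; linarith
  obtain ⟨m, hm⟩ : ∃ x, x = (yb ^ 2 + yc ^ 2 - ya ^ 2) / 2 := ⟨_, rfl⟩
  -- the determinant
  have hv' : σ.v = 3 * σ.p - σ.W - σ.u := by linarith
  have hdet : yb ^ 2 * yc ^ 2 - m ^ 2 = 3 / 4 := by
    rw [hm, hya, hyb, hyc]
    rw [hv'] at hprod ⊢
    linear_combination (3 / 4) * hprod
  have hΓ : 24 * κ ^ 2 * (yb * yc) * (yb * yc + m) = 9 * κ ^ 2 * (1 + 3 * (σ.p * σ.W) ^ 2) := by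
    rw [hm, hya, hyb, hyc]
    rw [hv'] at hprod ⊢
    linear_combination (9 * κ ^ 2) * hprod
  refine ⟨-(4 * κ * yc * (yb * yc + m)), -(4 * κ * yb * (yb * yc + m)), ?_⟩
  obtain ⟨ξ, hξ⟩ : ∃ x, x = -(4 * κ * yc * (yb * yc + m)) := ⟨_, rfl⟩
  obtain ⟨η, hη⟩ : ∃ x, x = -(4 * κ * yb * (yb * yc + m)) := ⟨_, rfl⟩
  rw [← hξ, ← hη, ← hya, ← hyb, ← hyc]
  have hP : yb ^ 2 * ξ - m * η = -(3 * κ * yb) := by
    rw [hξ, hη]; linear_combination (-4 * κ * yb) * hdet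
  have hQ : yc ^ 2 * η - m * ξ = -(3 * κ * yc) := by
    rw [hξ, hη]; linear_combination (-4 * κ * yc) * hdet
  obtain ⟨Γ, hΓ'⟩ : ∃ x, x = 24 * κ ^ 2 * (yb * yc) * (yb * yc + m) := ⟨_, rfl⟩
  have hΓξ : -(3 * κ * yb) * ξ + -(3 * κ * yc) * η = Γ := by rw [hξ, hη, hΓ']; ring
  have hGG : GG (ya ^ 2) (yb ^ 2) (yc ^ 2) (corner ξ η) = Γ * DD (corner ξ η) := by
    unfold GG DD
    rw [← MeasureTheory.integral_const_mul]
    congr 1
    funext z
    rw [ps_corner, pt_corner, ← hΓξ, ← hP, ← hQ, hm]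
    ring
  have hcc := (contDiff_corner ξ η).continuous
  have hdiv := divergence (p := fun z => -(3 * κ * yb) * corner ξ η z ^ 2) 
    (q := fun z => -(3 * κ * yc) * corner ξ η z ^ 2) 
    (p' := fun z => -(3 * κ * yb) * (2 * corner ξ η z * (ξ * corner ξ η z)))
    (q' := fun z => -(3 * κ * yc) * (2 * corner ξ η z * (η * corner ξ η z)))
    (by fun_prop) (by fun_prop) (by fun_prop) (by fun_prop)
    (by
      intro s t
      have h1 := ((hasDerivAt_corner_fst ξ η s t).pow 2).const_mul (-(3 * κ * yb))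
      exact h1.congr_deriv (by simp only [Nat.cast_ofNat, Nat.add_one_sub_one, pow_one]))
    (by
      intro s t
      have h1 := ((hasDerivAt_corner_snd ξ η s t).pow 2).const_mul (-(3 * κ * yc))
      exact h1.congr_deriv (by simp only [Nat.cast_ofNat, Nat.add_one_sub_one, pow_one]))
  have hint : ∫ x in Tri, (-(3 * κ * yb) * (2 * corner ξ η x * (ξ * corner ξ η x)) + 
      -(3 * κ * yc) * (2 * corner ξ η x * (η * corner ξ η x))) = 2 * Γ * DD (corner ξ η) := by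
    unfold DD
    rw [← MeasureTheory.integral_const_mul, ← hΓξ]
    congr 1
    funext z
    ring
  have hhyp : ∫ τ in (0 : ℝ)..1, (-(3 * κ * yb) * corner ξ η (τ, 1 - τ) ^ 2 + 
      -(3 * κ * yc) * corner ξ η (τ, 1 - τ) ^ 2) = 
      -(3 * κ * (yb + yc)) * ∫ τ in (0 : ℝ)..1, corner ξ η (τ, 1 - τ) ^ 2 := by
    rw [← intervalIntegral.integral_const_mul]
    congr 1
    funext z
    ring
  rw [hint, hhyp, intervalIntegral.integral_const_mul, intervalIntegral.integral_const_mul] at hdiv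
  have hH := BB_hyp_nonneg (corner ξ η)
  have hB2 : 2 * Γ * DD (corner ξ η) ≤ 3 * κ * BB ya yb yc (corner ξ η) := by
    have h1 : 3 * κ * BB ya yb yc (corner ξ η) = 2 * Γ * DD (corner ξ η) + 
        3 * κ * ((ya + yb + yc) * ∫ τ in (0 : ℝ)..1, corner ξ η (τ, 1 - τ) ^ 2) := by
      rw [hdiv]; unfold BB; ring
    have h2 : 0 ≤ 3 * κ * ((ya + yb + yc) * ∫ τ in (0 : ℝ)..1, corner ξ η (τ, 1 - τ) ^ 2) := by
      positivity
    linarith
  have hDD := DD_nonneg (corner ξ η)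
  unfold Par.QT
  rw [hGG, ← hκ]
  have hfin : 9 * π.k ^ 2 ≤ Γ := by
    rw [hΓ', hΓ, hκ]
    have := π.hk
    nlinarith [sq_nonneg π.k, mul_le_mul_of_nonneg_left hB (sq_nonneg π.k)]
  nlinarith

/-- boundedness from below -/
lemma bdd_below {xa xb xc ya yb yc κ : ℝ} (hxb : 0 < xb) (hxc : 0 < xc) 
    (hdet : 0 < xb * xc - ((xb + xc - xa) / 2) ^ 2) (hκ : 0 ≤ κ) (hya : 0 ≤ ya) (hyb : 0 ≤ yb) 
    (hyc : 0 ≤ yc) : ∃ C : ℝ, ∀ v : ℝ × ℝ → ℝ, ContDiff ℝ 1 v → 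
      -(C * DD v) ≤ GG xa xb xc v - 3 * κ * BB ya yb yc v := by
  obtain ⟨m, hm⟩ : ∃ x, x = (xb + xc - xa) / 2 := ⟨_, rfl⟩
  rw [← hm] at hdet
  obtain ⟨μ, hμ⟩ : ∃ x, x = (xb * xc - m ^ 2) / (xb + xc) := ⟨_, rfl⟩
  have hμ0 : 0 < μ := by rw [hμ]; positivity
  obtain ⟨c, hc⟩ : ∃ x, x = 9 * κ * (ya + yb + yc) := ⟨_, rfl⟩
  have hc0 : 0 ≤ c := by rw [hc]; positivity
  have hform : ∀ X Y : ℝ, μ * (X ^ 2 + Y ^ 2) ≤ xb * X ^ 2 - 2 * m * (X * Y) + xc * Y ^ 2 := by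
    intro X Y
    rw [hμ, div_mul_eq_mul_div, div_le_iff₀ (by positivity)]
    nlinarith [sq_nonneg (xb * X - m * Y), sq_nonneg (m * X - xc * Y)]
  refine ⟨2 * c + 2 * c ^ 2 / μ, fun v hv => ?_⟩
  have hvc := hv.continuous
  have hpsc := continuous_ps hv
  have hptc := continuous_pt hv
  have hdiv := divergence (p := fun z => c * ((z.1 - 1 / 3) * v z ^ 2)) 
    (q := fun z => c * ((z.2 - 1 / 3) * v z ^ 2)) 
    (p' := fun z => c * (1 * v z ^ 2 + (z.1 - 1 / 3) * (2 * v z * ps v z)))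
    (q' := fun z => c * (1 * v z ^ 2 + (z.2 - 1 / 3) * (2 * v z * pt v z)))
    (by fun_prop) (by fun_prop) (by fun_prop) (by fun_prop)
    (by
      intro s t
      have h1 := (((hasDerivAt_id s).sub_const (1 / 3 : ℝ)).mul ((hasDerivAt_ps hv s t).pow 2)).const_mul c
      exact h1.congr_deriv (by simp only [Nat.cast_ofNat, Nat.add_one_sub_one, pow_one]; rfl))
    (by
      intro s t
      have h1 := (((hasDerivAt_id t).sub_const (1 / 3 : ℝ)).mul ((hasDerivAt_pt hv s t).pow 2)).const_mul c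
      exact h1.congr_deriv (by simp only [Nat.cast_ofNat, Nat.add_one_sub_one, pow_one]; rfl))
  have e1 : ∫ τ in (0 : ℝ)..1, (c * ((τ - 1 / 3) * v (τ, 1 - τ) ^ 2) + 
      c * ((1 - τ - 1 / 3) * v (τ, 1 - τ) ^ 2)) = c / 3 * ∫ τ in (0 : ℝ)..1, v (τ, 1 - τ) ^ 2 := by
    rw [← intervalIntegral.integral_const_mul]
    congr 1; funext z; ring
  have e2 : ∫ τ in (0 : ℝ)..1, c * ((0 - 1 / 3) * v (0, τ) ^ 2) = -(c / 3 * ∫ τ in (0 : ℝ)..1, v (0, τ) ^ 2) := by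
    rw [← intervalIntegral.integral_const_mul, ← intervalIntegral.integral_neg]
    congr 1; funext z; ring
  have e3 : ∫ τ in (0 : ℝ)..1, c * ((0 - 1 / 3) * v (τ, 0) ^ 2) = -(c / 3 * ∫ τ in (0 : ℝ)..1, v (τ, 0) ^ 2) := by
    rw [← intervalIntegral.integral_const_mul, ← intervalIntegral.integral_neg]
    congr 1; funext z; ring
  simp only at hdiv
  rw [e1, e2, e3] at hdiv
  have hH := BB_hyp_nonneg v
  have hH2 : 0 ≤ ∫ τ in (0 : ℝ)..1, v (0, τ) ^ 2 := 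
    intervalIntegral.integral_nonneg zero_le_one (fun x _ => sq_nonneg _)
  have hH3 : 0 ≤ ∫ τ in (0 : ℝ)..1, v (τ, 0) ^ 2 := 
    intervalIntegral.integral_nonneg zero_le_one (fun x _ => sq_nonneg _)
  have hB : 3 * κ * BB ya yb yc v ≤ ∫ x in Tri, (c * (1 * v x ^ 2 + (x.1 - 1 / 3) * (2 * v x * ps v x)) + 
      c * (1 * v x ^ 2 + (x.2 - 1 / 3) * (2 * v x * pt v x))) := by
    rw [hdiv]
    unfold BB
    have a1 : 3 * κ * (ya * ∫ τ in (0 : ℝ)..1, v (τ, 1 - τ) ^ 2) ≤ c / 3 * ∫ τ in (0 : ℝ)..1, v (τ, 1 - τ) ^ 2 := by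
      rw [← mul_assoc]
      apply mul_le_mul_of_nonneg_right _ hH
      rw [hc]
      nlinarith [mul_nonneg hκ hyb, mul_nonneg hκ hyc]
    have a2 : 3 * κ * (yb * ∫ τ in (0 : ℝ)..1, v (0, τ) ^ 2) ≤ c / 3 * ∫ τ in (0 : ℝ)..1, v (0, τ) ^ 2 := by
      rw [← mul_assoc]
      apply mul_le_mul_of_nonneg_right _ hH2
      rw [hc]
      nlinarith [mul_nonneg hκ hya, mul_nonneg hκ hyc]
    have a3 : 3 * κ * (yc * ∫ τ in (0 : ℝ)..1, v (τ, 0) ^ 2) ≤ c / 3 * ∫ τ in (0 : ℝ)..1, v (τ, 0) ^ 2 := by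
      rw [← mul_assoc]
      apply mul_le_mul_of_nonneg_right _ hH3
      rw [hc]
      nlinarith [mul_nonneg hκ hya, mul_nonneg hκ hyb]
    linarith
  refine le_trans ?_ (sub_le_sub_left hB _)
  unfold GG DD
  rw [← MeasureTheory.integral_const_mul, ← integral_neg, ← integral_sub]
  · apply setIntegral_mono_on
    · exact integrableOn_Tri (by fun_prop)
    · apply Integrable.sub
      · exact integrableOn_Tri (by fun_prop)
      · exact integrableOn_Tri (by fun_prop)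
    · exact measurableSet_Tri
    · intro z hz
      obtain ⟨⟨z1, z2⟩, z3, z4⟩ := Tri_subset hz
      have h1 := hform (ps v z) (pt v z)
      have hy : ∀ q r d : ℝ, d ^ 2 ≤ 1 → c * (d * (2 * q * r)) ≤ μ * r ^ 2 + c ^ 2 / μ * q ^ 2 := by
        intro q r d hd
        have h2 : 0 ≤ (μ * r - c * d * q) ^ 2 / μ := by positivity
        have h3 : (μ * r - c * d * q) ^ 2 / μ = μ * r ^ 2 - c * (d * (2 * q * r)) + c ^ 2 / μ * q ^ 2 * d ^ 2 := by
          field_simp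
          ring
        have h4 : c ^ 2 / μ * q ^ 2 * d ^ 2 ≤ c ^ 2 / μ * q ^ 2 * 1 := 
          mul_le_mul_of_nonneg_left hd (by positivity)
        linarith
      have h2 := hy (v z) (ps v z) (z.1 - 1 / 3) (by nlinarith)
      have h3 := hy (v z) (pt v z) (z.2 - 1 / 3) (by nlinarith)
      have h4 : xb * (ps v z * (ps v z - pt v z)) + xc * (pt v z * (pt v z - ps v z)) + 
          xa * (ps v z * pt v z) = xb * ps v z ^ 2 - 2 * m * (ps v z * pt v z) + xc * pt v z ^ 2 := by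
        rw [hm]; ring
      rw [h4]
      have h5 : (2 * c + 2 * c ^ 2 / μ) * v z ^ 2 = 2 * c * v z ^ 2 + 2 * (c ^ 2 / μ * v z ^ 2) := by ring
      rw [h5]
      linarith
  · exact integrableOn_Tri (by fun_prop)
  · exact integrableOn_Tri (by fun_prop)

end Pool.Agent.Helper58.Robin
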