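import Mathlib

/-!
# The lowest Robin eigenvalue of a triangle

`robinQuotients α a b c` is the set of the Robin Rayleigh quotients, with parameter `α`, of the
`C¹` functions on the plane that do not vanish identically on the closed triangle with vertices
`a`, `b`, `c`, and `robinEigenvalue α a b c` is its infimum. As `C¹` functions on the plane are
dense in `H¹` of the open triangle, this is the lowest eigenvalue of the Robin Laplacian.
-/

open MeasureTheory

namespace Pool.Agent.Helper58.Robin

/-- The set of Robin Rayleigh quotients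
`(∫_T |∇u|² + α ∫_∂T u² ds) / ∫_T u²` for `u ∈ C¹(ℝ²)` with `∫_T u² > 0`, where `T` is the closed
triangle with vertices `a`, `b`, `c`. -/
def robinQuotients (α : ℝ) (a b c : EuclideanSpace ℝ (Fin 2)) : Set ℝ :=
  {r : ℝ | ∃ u : EuclideanSpace ℝ (Fin 2) → ℝ, ContDiff ℝ 1 u ∧
    0 < (∫ x in convexHull ℝ {a, b, c}, u x ^ 2) ∧
    r = ((∫ x in convexHull ℝ {a, b, c}, ‖fderiv ℝ u x‖ ^ 2) +
        α * ((∫ t in (0:ℝ)..1, u (a + t • (b - a)) ^ 2) * dist a b +
             (∫ t in (0:ℝ)..1, u (b + t • (c - b)) ^ 2) * dist b c +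
             (∫ t in (0:ℝ)..1, u (c + t • (a - c)) ^ 2) * dist c a)) /
        (∫ x in convexHull ℝ {a, b, c}, u x ^ 2)}

/-- The lowest Robin eigenvalue `λ₁(T, α)` of the triangle `T` with vertices `a`, `b`, `c`. -/
noncomputable def robinEigenvalue (α : ℝ) (a b c : EuclideanSpace ℝ (Fin 2)) : ℝ :=
  sInf (robinQuotients α a b c)

end Pool.Agent.Helper58.Robin
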