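import Pool.Agent.Helper58.Robin.Corner

/-!
# Existence of the parameters and of the trial functions
-/

open MeasureTheory Set

namespace Pool.Agent.Helper58.Robin

/-- `exp (3k)` as a function of `t` -/
noncomputable def EE (t : ℝ) : ℝ := (1 + t) * (1 + 2 * t) / ((1 - t) * (1 - 2 * t))

lemma EE_pos {t : ℝ} (h0 : 0 ≤ t) (h1 : t < 1 / 2) : 0 < EE t := by
  unfold EE
  have h2 : 0 < 1 - t := by linarith
  have h3 : 0 < 1 - 2 * t := by linarith
  positivity

lemma one_lt_EE {t : ℝ} (h0 : 0 < t) (h1 : t < 1 / 2) : 1 < EE t := by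
  unfold EE
  have h2 : 0 < 1 - t := by linarith
  have h3 : 0 < 1 - 2 * t := by linarith
  rw [lt_div_iff₀ (by positivity)]
  nlinarith

/-- the parameters from `t` -/
noncomputable def mkPar (t : ℝ) (h0 : 0 < t) (h1 : t < 1 / 2) : Par where
  t := t
  k := Real.log (EE t) / 3
  ht0 := h0
  ht1 := h1
  hk := by
    have := Real.log_pos (one_lt_EE h0 h1)
    positivity
  hS := by
    have hE := EE_pos h0.le h1
    rw [mul_div_cancel₀ _ (by norm_num : (3 : ℝ) ≠ 0), Real.sinh_eq, Real.exp_neg, Real.exp_log hE]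
    unfold EE
    have h2 : 1 - t ≠ 0 := by linarith
    have h3 : 1 - 2 * t ≠ 0 := by linarith
    have h4 : 1 + t ≠ 0 := by positivity
    have h5 : 1 + 2 * t ≠ 0 := by positivity
    have e1 : (1 + t) * (1 + 2 * t) / ((1 - t) * (1 - 2 * t)) * ((1 - t ^ 2) * (1 - 4 * t ^ 2)) = 
        ((1 + t) * (1 + 2 * t)) ^ 2 := by
      rw [div_mul_eq_mul_div, div_eq_iff (mul_ne_zero h2 h3)]; ring
    have e2 : ((1 + t) * (1 + 2 * t) / ((1 - t) * (1 - 2 * t)))⁻¹ * ((1 - t ^ 2) * (1 - 4 * t ^ 2)) = 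
        ((1 - t) * (1 - 2 * t)) ^ 2 := by
      rw [inv_div, div_mul_eq_mul_div, div_eq_iff (mul_ne_zero h4 h5)]; ring
    rw [div_mul_eq_mul_div, sub_mul, e1, e2]
    ring
  hC := by
    have hE := EE_pos h0.le h1
    rw [mul_div_cancel₀ _ (by norm_num : (3 : ℝ) ≠ 0), Real.cosh_eq, Real.exp_neg, Real.exp_log hE]
    unfold EE
    have h2 : 1 - t ≠ 0 := by linarith
    have h3 : 1 - 2 * t ≠ 0 := by linarith
    have h4 : 1 + t ≠ 0 := by positivity
    have h5 : 1 + 2 * t ≠ 0 := by positivity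
    have e1 : (1 + t) * (1 + 2 * t) / ((1 - t) * (1 - 2 * t)) * ((1 - t ^ 2) * (1 - 4 * t ^ 2)) = 
        ((1 + t) * (1 + 2 * t)) ^ 2 := by
      rw [div_mul_eq_mul_div, div_eq_iff (mul_ne_zero h2 h3)]; ring
    have e2 : ((1 + t) * (1 + 2 * t) / ((1 - t) * (1 - 2 * t)))⁻¹ * ((1 - t ^ 2) * (1 - 4 * t ^ 2)) = 
        ((1 - t) * (1 - 2 * t)) ^ 2 := by
      rw [inv_div, div_mul_eq_mul_div, div_eq_iff (mul_ne_zero h4 h5)]; ring
    rw [div_mul_eq_mul_div, add_mul, e1, e2]
    ring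

lemma exists_par {a : ℝ} (ha : 0 < a) : ∃ π : Par, π.k * π.t = a := by
  obtain ⟨q, hq⟩ : ∃ q, q = Real.exp (-(12 * a + 1)) := ⟨_, rfl⟩
  have hq0 : 0 < q := by rw [hq]; exact Real.exp_pos _
  have hq1 : q < 1 / 2 := by
    have h1 : q < Real.exp (-1) := by rw [hq]; exact Real.exp_lt_exp.mpr (by linarith)
    have h2 : Real.exp (-1) < 1 / 2 := by
      rw [Real.exp_neg]
      have h3 := Real.exp_one_gt_d9
      rw [inv_lt_comm₀ (Real.exp_pos _) (by norm_num)]
      linarith
    linarith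
  obtain ⟨t1, ht1⟩ : ∃ t1, t1 = (1 - q) / 2 := ⟨_, rfl⟩
  have h1 : 1 / 4 ≤ t1 := by rw [ht1]; linarith
  have h2 : t1 < 1 / 2 := by rw [ht1]; linarith
  have hcont : ContinuousOn (fun t => t * (Real.log (EE t) / 3)) (Icc 0 t1) := by
    apply ContinuousOn.mul continuousOn_id
    apply ContinuousOn.div_const
    apply ContinuousOn.log
    · unfold EE
      apply ContinuousOn.div (by fun_prop) (by fun_prop)
      intro x hx
      have h3 : 0 < 1 - x := by linarith [hx.2]
      have h4 : 0 < 1 - 2 * x := by linarith [hx.2]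
      positivity
    · intro x hx
      exact (EE_pos hx.1 (by linarith [hx.2])).ne'
  have hval : a ≤ t1 * (Real.log (EE t1) / 3) := by
    have h3 : Real.exp (12 * a + 1) ≤ EE t1 := by
      have h4 : 1 - 2 * t1 = q := by rw [ht1]; ring
      have h5 : Real.exp (12 * a + 1) = 1 / q := by
        rw [hq, Real.exp_neg, one_div, inv_inv]
      unfold EE
      rw [h4, h5, div_le_div_iff₀ hq0 (mul_pos (by linarith) hq0)]
      have h6 : 1 - t1 ≤ (1 + t1) * (1 + 2 * t1) := by nlinarith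
      have h7 := mul_le_mul_of_nonneg_right h6 hq0.le
      linarith
    have h4 : 12 * a + 1 ≤ Real.log (EE t1) := by
      have := Real.log_le_log (Real.exp_pos _) h3
      rwa [Real.log_exp] at this
    nlinarith
  have hivt := intermediate_value_Icc (by linarith : (0 : ℝ) ≤ t1) hcont
  have hmem : a ∈ Icc ((fun t => t * (Real.log (EE t) / 3)) 0) ((fun t => t * (Real.log (EE t) / 3)) t1) := by
    constructor
    · simp only [zero_mul]; exact ha.le
    · exact hval
  obtain ⟨t, ht, hta⟩ := hivt hmem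
  have ht0 : 0 < t := by
    rcases ht.1.eq_or_lt with h | h
    · rw [← h] at hta
      simp only [zero_mul] at hta
      exact absurd hta ha.ne
    · exact h
  refine ⟨mkPar t ht0 (by linarith [ht.2]), ?_⟩
  show Real.log (EE t) / 3 * t = a
  rw [mul_comm]
  exact hta

/-- **The trial functions.** -/
theorem exists_trial (π : Par) {ya yb yc : ℝ} (ha : 0 < yb + yc - ya) (hb : 0 < ya + yc - yb) 
    (hc : 0 < ya + yb - yc) (harea : (ya + yb + yc) * ((yb + yc - ya) * (ya + yc - yb) * (ya + yb - yc)) = 3) 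
    (hab : ya ≤ yb) (hac : ya ≤ yc) : 
    ∃ v : ℝ × ℝ → ℝ, ContDiff ℝ 1 v ∧ 0 < DD v ∧ 
      GG (ya ^ 2) (yb ^ 2) (yc ^ 2) v - 3 * (π.k * π.t) * BB ya yb yc v + 9 * π.k ^ 2 * DD v ≤ 0 := by
  let σ : Shape := {
    p := (ya + yb + yc) / 3
    W := yb + yc - ya
    u := ya + yc - yb
    v := ya + yb - yc
    hW := ha
    hu := hb
    hv := hc
    huW := by linarith
    hvW := by linarith
    hsum := by ring
    hprod := by linear_combination harea / 3 }
  have e1 : (σ.u + σ.v) / 2 = ya := by show (ya + yc - yb + (ya + yb - yc)) / 2 = ya; ring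
  have e2 : (σ.W + σ.v) / 2 = yb := by show (yb + yc - ya + (ya + yb - yc)) / 2 = yb; ring
  have e3 : (σ.W + σ.u) / 2 = yc := by show (yb + yc - ya + (ya + yc - yb)) / 2 = yc; ring
  have hpos : ∀ c₁ c₂ c₃ : ℝ, 0 < c₁ → 0 < c₂ → 0 < c₃ → 0 < DD (π.trial c₁ c₂ c₃) := by
    intro c₁ c₂ c₃ h1 h2 h3
    apply DD_pos (π.contDiff_trial c₁ c₂ c₃).continuous
    intro z
    unfold Par.trial
    have a1 := π.F_pos (1 - z.1 - z.2)
    have a2 := π.F_pos z.1
    have a3 := π.F_pos z.2
    positivity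
  rcases le_total 1 (π.t ^ 2 * (1 + 3 * (σ.p * σ.W) ^ 2)) with hB | hB
  · obtain ⟨ξ, η, h⟩ := π.caseB σ hB
    rw [e1, e2, e3] at h
    refine ⟨corner ξ η, contDiff_corner ξ η, DD_pos (contDiff_corner ξ η).continuous 
      (fun z => (Real.exp_pos _).ne'), h⟩
  · rcases le_total π.t (45 / 100) with ht | ht
    · have h := π.caseA σ ht hB
      rw [e1, e2, e3] at h
      exact ⟨π.trial 1 1 1, π.contDiff_trial 1 1 1, hpos 1 1 1 one_pos one_pos one_pos, h⟩
    · have h := π.caseC σ ht hB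
      rw [e1, e2, e3] at h
      refine ⟨_, π.contDiff_trial _ _ _, hpos _ _ _ ?_ ?_ ?_, h⟩
      · have := σ.hpW
        linarith
      · -- `1 + (u - p)/4 > 0`
        have hp1 := σ.hp1
        have hu := σ.hu
        have hW := σ.hpW
        have hpW : σ.p * σ.W ≤ 1146 / 1000 := by
          by_contra hcon
          push Not at hcon
          have h1 : (1146 / 1000 : ℝ) ^ 2 < (σ.p * σ.W) ^ 2 := 
            pow_lt_pow_left₀ hcon (by norm_num) (by norm_num)
          have h2 : (2025 / 10000 : ℝ) ≤ π.t ^ 2 := by nlinarith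
          nlinarith
        have hp3 : σ.p ≤ 2 := by nlinarith
        linarith
      · have hp1 := σ.hp1
        have hu := σ.hv
        have hW := σ.hpW
        have hpW : σ.p * σ.W ≤ 1146 / 1000 := by
          by_contra hcon
          push Not at hcon
          have h1 : (1146 / 1000 : ℝ) ^ 2 < (σ.p * σ.W) ^ 2 := 
            pow_lt_pow_left₀ hcon (by norm_num) (by norm_num)
          have h2 : (2025 / 10000 : ℝ) ≤ π.t ^ 2 := by nlinarith
          nlinarith
        have hp3 : σ.p ≤ 2 := by nlinarith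
        linarith

end Pool.Agent.Helper58.Robin
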