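import Pool.Agent.Helper58.Robin.Tri

/-!
# The ground state of the equilateral triangle
-/

open MeasureTheory Set

namespace Pool.Agent.Helper58.Robin

/-- partial derivative in the first variable -/
noncomputable def ps (v : ℝ × ℝ → ℝ) (z : ℝ × ℝ) : ℝ := fderiv ℝ v z (1, 0)

/-- partial derivative in the second variable -/
noncomputable def pt (v : ℝ × ℝ → ℝ) (z : ℝ × ℝ) : ℝ := fderiv ℝ v z (0, 1)

/-- the gradient energy -/
noncomputable def GG (xa xb xc : ℝ) (v : ℝ × ℝ → ℝ) : ℝ := 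
  ∫ z in Tri, (xb * (ps v z * (ps v z - pt v z)) + xc * (pt v z * (pt v z - ps v z)) + 
    xa * (ps v z * pt v z))

/-- the boundary energy -/
noncomputable def BB (ya yb yc : ℝ) (v : ℝ × ℝ → ℝ) : ℝ := 
  ya * (∫ τ in (0 : ℝ)..1, v (τ, 1 - τ) ^ 2) + yb * (∫ τ in (0 : ℝ)..1, v (0, τ) ^ 2) + 
    yc * ∫ τ in (0 : ℝ)..1, v (τ, 0) ^ 2

/-- the mass -/
noncomputable def DD (v : ℝ × ℝ → ℝ) : ℝ := ∫ z in Tri, v z ^ 2

lemma continuous_ps {v : ℝ × ℝ → ℝ} (hv : ContDiff ℝ 1 v) : Continuous (ps v) := by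
  have := hv.continuous_fderiv one_ne_zero
  unfold ps
  fun_prop

lemma continuous_pt {v : ℝ × ℝ → ℝ} (hv : ContDiff ℝ 1 v) : Continuous (pt v) := by
  have := hv.continuous_fderiv one_ne_zero
  unfold pt
  fun_prop

lemma hasDerivAt_ps {v : ℝ × ℝ → ℝ} (hv : ContDiff ℝ 1 v) (s t : ℝ) : 
    HasDerivAt (fun s => v (s, t)) (ps v (s, t)) s := by
  have h1 : HasFDerivAt v (fderiv ℝ v (s, t)) (s, t) := 
    ((hv.differentiable one_ne_zero) (s, t)).hasFDerivAt
  have h2 : HasDerivAt (fun s : ℝ => ((s, t) : ℝ × ℝ)) ((1, 0) : ℝ × ℝ) s := 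
    (hasDerivAt_id s).prodMk (hasDerivAt_const s t)
  exact h1.comp_hasDerivAt s h2

lemma hasDerivAt_pt {v : ℝ × ℝ → ℝ} (hv : ContDiff ℝ 1 v) (s t : ℝ) : 
    HasDerivAt (fun t => v (s, t)) (pt v (s, t)) t := by
  have h1 : HasFDerivAt v (fderiv ℝ v (s, t)) (s, t) := 
    ((hv.differentiable one_ne_zero) (s, t)).hasFDerivAt
  have h2 : HasDerivAt (fun t : ℝ => ((s, t) : ℝ × ℝ)) ((0, 1) : ℝ × ℝ) t := 
    (hasDerivAt_const t s).prodMk (hasDerivAt_id t)
  exact h1.comp_hasDerivAt t h2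

/-- The parameters of the equilateral ground state: `0 < t < 1/2`, `0 < k` and 
`3k = 2 artanh (3t / (1 + 2t²))`. -/
structure Par where
  t : ℝ
  k : ℝ
  ht0 : 0 < t
  ht1 : t < 1 / 2
  hk : 0 < k
  hS : Real.sinh (3 * k) * ((1 - t ^ 2) * (1 - 4 * t ^ 2)) = 6 * t * (1 + 2 * t ^ 2)
  hC : Real.cosh (3 * k) * ((1 - t ^ 2) * (1 - 4 * t ^ 2)) = 1 + 13 * t ^ 2 + 4 * t ^ 4

namespace Par

variable (π : Par)

lemma hP : 0 < 1 - π.t ^ 2 := by
  have := π.ht0; have := π.ht1; nlinarith

lemma hQ : 0 < 1 - 4 * π.t ^ 2 := by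
  have := π.ht0; have := π.ht1; nlinarith

/-- the one dimensional profile -/
noncomputable def F (x : ℝ) : ℝ := Real.cosh (3 * π.k * x) - π.t * Real.sinh (3 * π.k * x)

/-- its derivative -/
noncomputable def F' (x : ℝ) : ℝ := 3 * π.k * (Real.sinh (3 * π.k * x) - π.t * Real.cosh (3 * π.k * x))

lemma F_pos (x : ℝ) : 0 < π.F x := by
  unfold F
  have h1 := π.ht0
  have h2 := π.ht1
  have h3 : |Real.sinh (3 * π.k * x)| < Real.cosh (3 * π.k * x) := by
    have := Real.cosh_sq (3 * π.k * x)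
    have h4 := Real.cosh_pos (3 * π.k * x)
    apply abs_lt_of_sq_lt_sq _ h4.le
    linarith
  have h4 := le_abs_self (Real.sinh (3 * π.k * x))
  have h5 := abs_nonneg (Real.sinh (3 * π.k * x))
  nlinarith

lemma hasDerivAt_F (x : ℝ) : HasDerivAt π.F (π.F' x) x := by
  unfold F F'
  have h1 : HasDerivAt (fun x => 3 * π.k * x) (3 * π.k) x := by
    simpa using (hasDerivAt_id x).const_mul (3 * π.k)
  exact (h1.cosh.sub (h1.sinh.const_mul π.t)).congr_deriv (by ring)

lemma hasDerivAt_F' (x : ℝ) : HasDerivAt π.F' (9 * π.k ^ 2 * π.F x) x := by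
  unfold F F'
  have h1 : HasDerivAt (fun x => 3 * π.k * x) (3 * π.k) x := by
    simpa using (hasDerivAt_id x).const_mul (3 * π.k)
  exact ((h1.sinh.sub (h1.cosh.const_mul π.t)).const_mul (3 * π.k)).congr_deriv (by ring)

@[fun_prop]
lemma continuous_F : Continuous π.F := by
  unfold F; fun_prop

@[fun_prop]
lemma continuous_F' : Continuous π.F' := by
  unfold F'; fun_prop

@[fun_prop]
lemma contDiff_F {n : WithTop ℕ∞} : ContDiff ℝ n π.F := by
  unfold F; fun_prop

@[simp]
lemma F_zero : π.F 0 = 1 := by simp [F]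

@[simp]
lemma F'_zero : π.F' 0 = -(3 * π.k * π.t) := by simp [F']

lemma F_one_sub (x : ℝ) : π.F (1 - x) = 
    (Real.cosh (3 * π.k) - π.t * Real.sinh (3 * π.k)) * Real.cosh (3 * π.k * x) - 
    (Real.sinh (3 * π.k) - π.t * Real.cosh (3 * π.k)) * Real.sinh (3 * π.k * x) := by
  unfold F
  rw [show 3 * π.k * (1 - x) = 3 * π.k - 3 * π.k * x by ring, Real.cosh_sub, Real.sinh_sub]
  ring

lemma F'_one_sub (x : ℝ) : π.F' (1 - x) = 3 * π.k * (
    (Real.sinh (3 * π.k) - π.t * Real.cosh (3 * π.k)) * Real.cosh (3 * π.k * x) - 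
    (Real.cosh (3 * π.k) - π.t * Real.sinh (3 * π.k)) * Real.sinh (3 * π.k * x)) := by
  unfold F'
  rw [show 3 * π.k * (1 - x) = 3 * π.k - 3 * π.k * x by ring, Real.cosh_sub, Real.sinh_sub]
  ring

lemma rel1 : Real.sinh (3 * π.k) * (1 + 2 * π.t ^ 2) = 3 * π.t * (1 + Real.cosh (3 * π.k)) := by
  have h1 : (1 - π.t ^ 2) * (1 - 4 * π.t ^ 2) ≠ 0 := (mul_pos π.hP π.hQ).ne'
  apply mul_left_cancel₀ h1
  linear_combination (1 + 2 * π.t ^ 2) * π.hS - 3 * π.t * π.hC

lemma rel2 : 3 * π.t * Real.sinh (3 * π.k) = (1 + 2 * π.t ^ 2) * (Real.cosh (3 * π.k) - 1) := by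
  have h1 : (1 - π.t ^ 2) * (1 - 4 * π.t ^ 2) ≠ 0 := (mul_pos π.hP π.hQ).ne'
  apply mul_left_cancel₀ h1
  linear_combination (3 * π.t) * π.hS - (1 + 2 * π.t ^ 2) * π.hC

/-- the Robin condition on the sides of the equilateral triangle -/
lemma side (x : ℝ) : π.F' x + π.F' (1 - x) = 6 * π.k * π.t * (π.F x + π.F (1 - x)) := by
  rw [F_one_sub, F'_one_sub]
  unfold F F'
  linear_combination (3 * π.k * Real.cosh (3 * π.k * x)) * π.rel1 + 
    (3 * π.k * Real.sinh (3 * π.k * x)) * π.rel2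

end Par

/-- the ground state -/
noncomputable def u0 (π : Par) (z : ℝ × ℝ) : ℝ := π.F (1 - z.1 - z.2) + π.F z.1 + π.F z.2

/-- **Lower bound for the equilateral triangle.** -/
theorem ground (π : Par) {v : ℝ × ℝ → ℝ} (hv : ContDiff ℝ 1 v) : 
    0 ≤ GG 1 1 1 v - 3 * (π.k * π.t) * BB 1 1 1 v + 9 * π.k ^ 2 * DD v := by
  set u := u0 π with hu
  have hupos : ∀ z, 0 < u z := fun z => by
    have h1 := π.F_pos (1 - z.1 - z.2)
    have h2 := π.F_pos z.1
    have h3 := π.F_pos z.2
    rw [hu]; unfold u0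
    linarith
  have huc : Continuous u := by rw [hu]; unfold u0; fun_prop
  set us : ℝ × ℝ → ℝ := fun z => -π.F' (1 - z.1 - z.2) + π.F' z.1 with hus
  set ut : ℝ × ℝ → ℝ := fun z => -π.F' (1 - z.1 - z.2) + π.F' z.2 with hut
  have husc : Continuous us := by rw [hus]; fun_prop
  have hutc : Continuous ut := by rw [hut]; fun_prop
  have hvc : Continuous v := hv.continuous
  have hpsc := continuous_ps hv
  have hptc := continuous_pt hv
  have e1 : ∀ s t : ℝ, HasDerivAt (fun s => π.F (1 - s - t)) (-π.F' (1 - s - t)) s := by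
    intro s t
    have h1 : HasDerivAt (fun s : ℝ => 1 - s - t) (-1) s := by
      simpa using ((hasDerivAt_id s).const_sub 1).sub_const t
    have h2 := (π.hasDerivAt_F (1 - s - t)).comp s h1
    exact h2.congr_deriv (by ring)
  have e2 : ∀ s t : ℝ, HasDerivAt (fun t => π.F (1 - s - t)) (-π.F' (1 - s - t)) t := by
    intro s t
    have h1 : HasDerivAt (fun t : ℝ => 1 - s - t) (-1) t := by
      simpa using ((hasDerivAt_id t).const_sub (1 - s))
    have h2 := (π.hasDerivAt_F (1 - s - t)).comp t h1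
    exact h2.congr_deriv (by ring)
  have e3 : ∀ s t : ℝ, HasDerivAt (fun s => π.F' (1 - s - t)) (-(9 * π.k ^ 2 * π.F (1 - s - t))) s := by
    intro s t
    have h1 : HasDerivAt (fun s : ℝ => 1 - s - t) (-1) s := by
      simpa using ((hasDerivAt_id s).const_sub 1).sub_const t
    have h2 := (π.hasDerivAt_F' (1 - s - t)).comp s h1
    exact h2.congr_deriv (by ring)
  have e4 : ∀ s t : ℝ, HasDerivAt (fun t => π.F' (1 - s - t)) (-(9 * π.k ^ 2 * π.F (1 - s - t))) t := by
    intro s t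
    have h1 : HasDerivAt (fun t : ℝ => 1 - s - t) (-1) t := by
      simpa using ((hasDerivAt_id t).const_sub (1 - s))
    have h2 := (π.hasDerivAt_F' (1 - s - t)).comp t h1
    exact h2.congr_deriv (by ring)
  have du1 : ∀ s t, HasDerivAt (fun s => u (s, t)) (us (s, t)) s := by
    intro s t
    have h1 := ((e1 s t).add (π.hasDerivAt_F s)).add_const (π.F t)
    exact h1
  have du2 : ∀ s t, HasDerivAt (fun t => u (s, t)) (ut (s, t)) t := by
    intro s t
    have h1 := ((e2 s t).add_const (π.F s)).add (π.hasDerivAt_F t)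
    exact h1
  set P : ℝ × ℝ → ℝ := fun z => us z - ut z / 2 with hPdef
  set Q : ℝ × ℝ → ℝ := fun z => ut z - us z / 2 with hQdef
  set P' : ℝ × ℝ → ℝ := fun z => 9 * π.k ^ 2 * (π.F (1 - z.1 - z.2) / 2 + π.F z.1) with hP'
  set Q' : ℝ × ℝ → ℝ := fun z => 9 * π.k ^ 2 * (π.F (1 - z.1 - z.2) / 2 + π.F z.2) with hQ'
  have dP : ∀ s t, HasDerivAt (fun s => P (s, t)) (P' (s, t)) s := by
    intro s t
    have h1 := ((e3 s t).neg.add (π.hasDerivAt_F' s)).sub (((e3 s t).neg.add_const (π.F' t)).div_const 2)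
    exact h1.congr_deriv (by rw [hP']; ring)
  have dQ : ∀ s t, HasDerivAt (fun t => Q (s, t)) (Q' (s, t)) t := by
    intro s t
    have h1 := ((e4 s t).neg.add (π.hasDerivAt_F' t)).sub (((e4 s t).neg.add_const (π.F' s)).div_const 2)
    exact h1.congr_deriv (by rw [hQ']; ring)
  have hPc : Continuous P := by rw [hPdef]; fun_prop
  have hQc : Continuous Q := by rw [hQdef]; fun_prop
  have hPc' : Continuous P' := by rw [hP']; fun_prop
  have hQc' : Continuous Q' := by rw [hQ']; fun_prop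
  -- the vector field
  have hdiv := divergence (p := fun z => v z ^ 2 * P z / u z) (q := fun z => v z ^ 2 * Q z / u z) 
    (p' := fun z => ((2 * v z * ps v z * P z + v z ^ 2 * P' z) * u z - v z ^ 2 * P z * us z) / u z ^ 2)
    (q' := fun z => ((2 * v z * pt v z * Q z + v z ^ 2 * Q' z) * u z - v z ^ 2 * Q z * ut z) / u z ^ 2)
    (by exact Continuous.div (by fun_prop) huc (fun z => (hupos z).ne'))
    (by exact Continuous.div (by fun_prop) huc (fun z => (hupos z).ne'))
    (by exact Continuous.div (by fun_prop) (by fun_prop) (fun z => by have := hupos z; positivity))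
    (by exact Continuous.div (by fun_prop) (by fun_prop) (fun z => by have := hupos z; positivity))
    (by
      intro s t
      have h1 := (((hasDerivAt_ps hv s t).pow 2).mul (dP s t)).div (du1 s t) (hupos (s, t)).ne'
      exact h1.congr_deriv (by simp only [Nat.cast_ofNat, Nat.add_one_sub_one, pow_one]; rfl))
    (by
      intro s t
      have h1 := (((hasDerivAt_pt hv s t).pow 2).mul (dQ s t)).div (du2 s t) (hupos (s, t)).ne'
      exact h1.congr_deriv (by simp only [Nat.cast_ofNat, Nat.add_one_sub_one, pow_one]; rfl))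
  -- boundary values
  have hside := π.side
  have b1 : ∀ τ : ℝ, v (τ, 1 - τ) ^ 2 * P (τ, 1 - τ) / u (τ, 1 - τ) + 
      v (τ, 1 - τ) ^ 2 * Q (τ, 1 - τ) / u (τ, 1 - τ) = 3 * (π.k * π.t) * v (τ, 1 - τ) ^ 2 := by
    intro τ
    have h1 : P (τ, 1 - τ) + Q (τ, 1 - τ) = 3 * (π.k * π.t) * u (τ, 1 - τ) := by
      have h2 := hside τ
      simp only [hPdef, hQdef, hus, hut, hu, u0]
      rw [show (1 : ℝ) - τ - (1 - τ) = 0 by ring, π.F_zero, π.F'_zero]
      linarith
    rw [← add_div, ← mul_add, h1]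
    have := (hupos (τ, 1 - τ)).ne'
    field_simp
  have b2 : ∀ τ : ℝ, v (0, τ) ^ 2 * P (0, τ) / u (0, τ) = -(3 * (π.k * π.t) * v (0, τ) ^ 2) := by
    intro τ
    have h1 : P (0, τ) = -(3 * (π.k * π.t) * u (0, τ)) := by
      have h2 := hside τ
      simp only [hPdef, hus, hut, hu, u0]
      rw [sub_zero, π.F_zero, π.F'_zero]
      linarith
    rw [h1]
    have := (hupos (0, τ)).ne'
    field_simp
  have b3 : ∀ τ : ℝ, v (τ, 0) ^ 2 * Q (τ, 0) / u (τ, 0) = -(3 * (π.k * π.t) * v (τ, 0) ^ 2) := by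
    intro τ
    have h1 : Q (τ, 0) = -(3 * (π.k * π.t) * u (τ, 0)) := by
      have h2 := hside τ
      simp only [hQdef, hus, hut, hu, u0]
      rw [sub_zero, π.F_zero, π.F'_zero]
      linarith
    rw [h1]
    have := (hupos (τ, 0)).ne'
    field_simp
  simp only [b1, b2, b3] at hdiv
  rw [intervalIntegral.integral_const_mul, intervalIntegral.integral_neg, 
    intervalIntegral.integral_const_mul, intervalIntegral.integral_neg, 
    intervalIntegral.integral_const_mul] at hdiv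
  have hB : 3 * (π.k * π.t) * BB 1 1 1 v = ∫ x in Tri, 
      (((2 * v x * ps v x * P x + v x ^ 2 * P' x) * u x - v x ^ 2 * P x * us x) / u x ^ 2 + 
      ((2 * v x * pt v x * Q x + v x ^ 2 * Q' x) * u x - v x ^ 2 * Q x * ut x) / u x ^ 2) := by
    rw [hdiv]; unfold BB; ring
  rw [hB]
  unfold GG DD
  rw [← MeasureTheory.integral_const_mul, ← integral_sub, ← integral_add]
  · apply setIntegral_nonneg measurableSet_Tri
    intro z _
    have hz := hupos z
    have hPQ : P' z + Q' z = 9 * π.k ^ 2 * u z := by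
      simp only [hP', hQ', hu, u0]; ring
    have key : 1 * (ps v z * (ps v z - pt v z)) + 1 * (pt v z * (pt v z - ps v z)) + 
        1 * (ps v z * pt v z) - 
        (((2 * v z * ps v z * P z + v z ^ 2 * P' z) * u z - v z ^ 2 * P z * us z) / u z ^ 2 + 
        ((2 * v z * pt v z * Q z + v z ^ 2 * Q' z) * u z - v z ^ 2 * Q z * ut z) / u z ^ 2) + 
        9 * π.k ^ 2 * v z ^ 2 = 
        (ps v z - v z * us z / u z) ^ 2 - (ps v z - v z * us z / u z) * (pt v z - v z * ut z / u z) + 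
        (pt v z - v z * ut z / u z) ^ 2 := by
      have hQ'' : Q' z = 9 * π.k ^ 2 * u z - P' z := by linarith
      rw [hQ'']
      simp only [hPdef, hQdef]
      have := hz.ne'
      field_simp
      ring
    rw [key]
    nlinarith [sq_nonneg ((ps v z - v z * us z / u z) - (pt v z - v z * ut z / u z)), 
      sq_nonneg (ps v z - v z * us z / u z), sq_nonneg (pt v z - v z * ut z / u z)]
  · apply Integrable.sub
    · exact integrableOn_Tri (by fun_prop)
    · apply integrableOn_Tri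
      apply Continuous.add
      · exact Continuous.div (by fun_prop) (by fun_prop) (fun z => by have := hupos z; positivity)
      · exact Continuous.div (by fun_prop) (by fun_prop) (fun z => by have := hupos z; positivity)
  · exact (integrableOn_Tri (by fun_prop : Continuous (fun z => 9 * π.k ^ 2 * v z ^ 2)))
  · exact integrableOn_Tri (by fun_prop)
  · apply integrableOn_Tri
    apply Continuous.add
    · exact Continuous.div (by fun_prop) (by fun_prop) (fun z => by have := hupos z; positivity)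
    · exact Continuous.div (by fun_prop) (by fun_prop) (fun z => by have := hupos z; positivity)

end Pool.Agent.Helper58.Robin
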