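import Pool.Agent.Helper58.Robin.Trial

/-!
# Closed forms of the constants
-/

open MeasureTheory Set

namespace Pool.Agent.Helper58.Robin

namespace Par

variable (π : Par)

/-- the constant `K` -/
noncomputable def K : ℝ := 2 * π.t * (1 - 2 * π.t ^ 2) / ((1 - π.t ^ 2) * (1 - 4 * π.t ^ 2))

/-- the constant `Φ` -/
noncomputable def Phi : ℝ := 9 / 4 * ((1 - π.t ^ 2) * (π.k + 4 * π.t / (1 - 4 * π.t ^ 2)))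

/-- `b` -/
noncomputable def b : ℝ := 1 + 2 * π.b1 + 2 * π.b2 + 4 * π.b3

lemma Sh_eq : π.Sh = 6 * π.t * (1 + 2 * π.t ^ 2) / ((1 - π.t ^ 2) * (1 - 4 * π.t ^ 2)) := by
  rw [eq_div_iff (mul_pos π.hP π.hQ).ne']; exact π.hS

lemma Ch_eq : π.Ch = (1 + 13 * π.t ^ 2 + 4 * π.t ^ 4) / ((1 - π.t ^ 2) * (1 - 4 * π.t ^ 2)) := by
  rw [eq_div_iff (mul_pos π.hP π.hQ).ne']; exact π.hC

lemma K_pos : 0 < π.K := by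
  unfold K
  have h1 := π.hP
  have h2 := π.hQ
  have h3 := π.ht0
  have h4 : 0 < 1 - 2 * π.t ^ 2 := by nlinarith [sq_nonneg π.t]
  positivity

lemma Phi_pos : 0 < π.Phi := by
  unfold Phi
  have h1 := π.hP
  have h2 := π.hQ
  have h3 := π.ht0
  have h4 := π.hk
  positivity

lemma id_I : π.I0 - π.I1 = π.Phi * (π.K - π.k) := by
  unfold I0 I1 Phi K
  rw [I0_eq, I1_eq, Sh_eq, Ch_eq]
  have h1 := π.hP.ne'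
  have h2 := π.hQ.ne'
  generalize π.t = t at *
  generalize π.k = k at *
  obtain ⟨P, hP⟩ : ∃ P, P = 1 - t ^ 2 := ⟨_, rfl⟩
  obtain ⟨Q, hQ⟩ : ∃ Q, Q = 1 - 4 * t ^ 2 := ⟨_, rfl⟩
  rw [← hP] at h1 ⊢
  rw [← hQ] at h2 ⊢
  field_simp
  rw [hP, hQ]
  ring

lemma id_b : π.k * π.t * π.b = 2 / 3 * (π.Phi * π.K) := by
  unfold b b1 b2 b3 Phi K
  rw [int_F_sq, int_F_rev, int_F, Sh_eq, Ch_eq]
  have h1 := π.hP.ne'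
  have h2 := π.hQ.ne'
  have h3 := π.hk.ne'
  generalize π.t = t at *
  generalize π.k = k at *
  obtain ⟨P, hP⟩ : ∃ P, P = 1 - t ^ 2 := ⟨_, rfl⟩
  obtain ⟨Q, hQ⟩ : ∃ Q, Q = 1 - 4 * t ^ 2 := ⟨_, rfl⟩
  rw [← hP] at h1 ⊢
  rw [← hQ] at h2 ⊢
  field_simp
  rw [hP, hQ]
  ring

lemma id_beta : π.k * π.t * (π.b1 + π.b2 - 1 - π.b3) = 
    4 / 3 * (π.Phi * (π.t ^ 3 / ((1 - π.t ^ 2) * (1 - 4 * π.t ^ 2)))) := by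
  unfold b1 b2 b3 Phi
  rw [int_F_sq, int_F_rev, int_F, Sh_eq, Ch_eq]
  have h1 := π.hP.ne'
  have h2 := π.hQ.ne'
  have h3 := π.hk.ne'
  generalize π.t = t at *
  generalize π.k = k at *
  obtain ⟨P, hP⟩ : ∃ P, P = 1 - t ^ 2 := ⟨_, rfl⟩
  obtain ⟨Q, hQ⟩ : ∃ Q, Q = 1 - 4 * t ^ 2 := ⟨_, rfl⟩
  rw [← hP] at h1 ⊢
  rw [← hQ] at h2 ⊢
  field_simp
  rw [hP, hQ]
  ring

lemma id_alpha0 : π.I0 - 3 * (π.k * π.t) * (1 + 2 * π.b1) + 9 * π.k ^ 2 * π.D0 = 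
    (1 - π.t ^ 2) * π.t * (π.Sh - 3 * π.k) := by
  unfold I0 b1 D0
  rw [I0_eq, int_F_sq, D0_eq, Sh_eq, Ch_eq]
  have h1 := π.hP.ne'
  have h2 := π.hQ.ne'
  have h3 := π.hk.ne'
  generalize π.t = t at *
  generalize π.k = k at *
  obtain ⟨P, hP⟩ : ∃ P, P = 1 - t ^ 2 := ⟨_, rfl⟩
  obtain ⟨Q, hQ⟩ : ∃ Q, Q = 1 - 4 * t ^ 2 := ⟨_, rfl⟩
  rw [← hP] at h1 ⊢
  rw [← hQ] at h2 ⊢
  field_simp
  rw [hP, hQ]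
  ring

lemma id_alpha1 : -π.I1 / 2 - 3 * (π.k * π.t) * (π.b2 + 2 * π.b3) + 9 * π.k ^ 2 * π.D1 = 
    -((1 - π.t ^ 2) * π.t * (π.Sh - 3 * π.k)) / 2 := by
  unfold I1 b2 b3 D1
  rw [I1_eq, int_F_rev, int_F, D1_eq, Sh_eq, Ch_eq]
  have h1 := π.hP.ne'
  have h2 := π.hQ.ne'
  have h3 := π.hk.ne'
  generalize π.t = t at *
  generalize π.k = k at *
  obtain ⟨P, hP⟩ : ∃ P, P = 1 - t ^ 2 := ⟨_, rfl⟩
  obtain ⟨Q, hQ⟩ : ∃ Q, Q = 1 - 4 * t ^ 2 := ⟨_, rfl⟩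
  rw [← hP] at h1 ⊢
  rw [← hQ] at h2 ⊢
  field_simp
  rw [hP, hQ]
  ring

/-- the energy of the equilateral triangle -/
lemma QE (c₁ c₂ c₃ : ℝ) : GG 1 1 1 (π.trial c₁ c₂ c₃) - 3 * (π.k * π.t) * BB 1 1 1 (π.trial c₁ c₂ c₃) + 
    9 * π.k ^ 2 * DD (π.trial c₁ c₂ c₃) = (1 - π.t ^ 2) * π.t * (π.Sh - 3 * π.k) * 
    (c₁ ^ 2 + c₂ ^ 2 + c₃ ^ 2 - c₁ * c₂ - c₂ * c₃ - c₁ * c₃) := by
  rw [GG_trial, BB_trial, DD_trial]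
  linear_combination (c₁ ^ 2 + c₂ ^ 2 + c₃ ^ 2) * π.id_alpha0 + 
    (2 * (c₁ * c₂ + c₂ * c₃ + c₁ * c₃)) * π.id_alpha1

end Par

end Pool.Agent.Helper58.Robin
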