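import Pool.Agent.Helper58.Robin.Ident

/-!
# Bounds for `k`
-/

open Set

namespace Pool.Agent.Helper58.Robin

lemma log_lower {x : ℝ} (hx0 : 0 ≤ x) (hx1 : x < 1) : 
    2 * x + 2 / 3 * x ^ 3 + 2 / 5 * x ^ 5 ≤ Real.log (1 + x) - Real.log (1 - x) := by
  have h := Real.hasSum_log_sub_log_of_abs_lt_one (x := x) (by rw [abs_of_nonneg hx0]; exact hx1)
  have h2 := sum_le_hasSum (Finset.range 3) (fun i _ => by positivity) h
  refine le_trans (le_of_eq ?_) h2
  simp [Finset.sum_range_succ]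
  ring

namespace Par

variable (π : Par)

lemma exp3k : Real.exp (3 * π.k) * ((1 - π.t) * (1 - 2 * π.t)) = (1 + π.t) * (1 + 2 * π.t) := by
  have h1 := π.ht0
  have h2 := π.ht1
  have h3 : (1 + π.t) * (1 + 2 * π.t) ≠ 0 := by positivity
  apply mul_right_cancel₀ h3
  have h4 : Real.exp (3 * π.k) = Real.cosh (3 * π.k) + Real.sinh (3 * π.k) := by
    rw [Real.cosh_add_sinh]
  rw [h4]
  linear_combination π.hC + π.hS

lemma three_k : 3 * π.k = (Real.log (1 + π.t) - Real.log (1 - π.t)) + 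
    (Real.log (1 + 2 * π.t) - Real.log (1 - 2 * π.t)) := by
  have h1 := π.ht0
  have h2 := π.ht1
  have h3 := π.exp3k
  have h4 : 0 < 1 - π.t := by linarith
  have h5 : 0 < 1 - 2 * π.t := by linarith
  have h6 := congrArg Real.log h3
  rw [Real.log_mul (Real.exp_pos _).ne' (by positivity), Real.log_mul h4.ne' h5.ne', 
    Real.log_mul (by positivity) (by positivity), Real.log_exp] at h6
  linarith

/-- lower bound for `k` -/
lemma k_lower (ht : π.t ≤ 45 / 100) : 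
    π.K - π.k ≤ 2 * π.t ^ 2 / (1 - 2 * π.t ^ 2) * π.K := by
  have h1 := π.ht0
  have h2 := π.ht1
  have hP := π.hP
  have hQ := π.hQ
  have h4 : 0 < 1 - 2 * π.t ^ 2 := by nlinarith [sq_nonneg π.t]
  have h5 : π.K - 2 * π.t ^ 2 / (1 - 2 * π.t ^ 2) * π.K = 2 * π.t / (1 - π.t ^ 2) := by
    unfold K
    have hP' := hP.ne'
    have hQ' := hQ.ne'
    have h4' := h4.ne'
    generalize π.t = t at *
    obtain ⟨P, hP⟩ : ∃ P, P = 1 - t ^ 2 := ⟨_, rfl⟩
    obtain ⟨Q, hQ⟩ : ∃ Q, Q = 1 - 4 * t ^ 2 := ⟨_, rfl⟩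
    obtain ⟨R, hR⟩ : ∃ R, R = 1 - 2 * t ^ 2 := ⟨_, rfl⟩
    rw [← hP] at hP' ⊢
    rw [← hQ] at hQ' ⊢
    rw [← hR] at h4' ⊢
    field_simp
    rw [hR, hQ]
    ring
  have h6 : 2 * π.t / (1 - π.t ^ 2) ≤ π.k := by
    have h7 := log_lower h1.le (by linarith : π.t < 1)
    have h8 := log_lower (x := 2 * π.t) (by linarith) (by linarith)
    have h9 := π.three_k
    have h10 : 6 * π.t + 6 * π.t ^ 3 + 66 / 5 * π.t ^ 5 ≤ 3 * π.k := by
      rw [h9]
      refine le_trans (le_of_eq ?_) (add_le_add h7 h8)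
      ring
    rw [div_le_iff₀ hP]
    have h11 : 6 * π.t ≤ (6 * π.t + 6 * π.t ^ 3 + 66 / 5 * π.t ^ 5) * (1 - π.t ^ 2) := by
      have h12 : π.t ^ 2 ≤ 2025 / 10000 := by nlinarith
      have h13 : 0 ≤ π.t ^ 5 := by positivity
      have h14 : (6 * π.t + 6 * π.t ^ 3 + 66 / 5 * π.t ^ 5) * (1 - π.t ^ 2) - 6 * π.t = 
          π.t ^ 5 * (66 / 5 * (1 - π.t ^ 2) - 6) := by ring
      have h15 : 0 ≤ π.t ^ 5 * (66 / 5 * (1 - π.t ^ 2) - 6) := by
        apply mul_nonneg h13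
        linarith
      linarith
    have h16 := mul_le_mul_of_nonneg_right h10 hP.le
    linarith
  linarith

lemma Sh_le : π.Sh ≤ 9 * π.K := by
  have h1 := π.ht0
  have h2 := π.ht1
  have hP := π.hP
  have hQ := π.hQ
  rw [Sh_eq]
  unfold K
  rw [← mul_div_assoc]
  apply div_le_div_of_nonneg_right _ (by positivity)
  nlinarith [mul_pos h1 (sub_pos.mpr h2), sq_nonneg π.t]

lemma K_lower (ht : 45 / 100 ≤ π.t) : 7 / 2 ≤ π.K := by
  have h1 := π.ht0
  have h2 := π.ht1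
  have hP := π.hP
  have hQ := π.hQ
  unfold K
  rw [le_div_iff₀ (by positivity)]
  -- polynomial inequality on [0.45, 0.5]
  have h3 : 0 ≤ (π.t - 45 / 100) := by linarith
  have h4 : 0 ≤ (1 / 2 - π.t) := by linarith
  nlinarith [mul_nonneg h3 h4, mul_nonneg (mul_nonneg h3 h4) h1.le, 
    mul_nonneg (mul_nonneg h3 h4) (mul_nonneg h1.le h1.le), sq_nonneg π.t, 
    mul_nonneg (mul_nonneg h3 h4) (mul_nonneg (mul_nonneg h1.le h1.le) h1.le)]

/-- upper bound for `k` -/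
lemma k_upper (ht : 45 / 100 ≤ π.t) : π.k ≤ 45 / 100 * π.K := by
  have h1 := π.Sh_le
  have h2 := π.K_lower ht
  have h3 : π.Sh ≤ Real.sinh (3 * (45 / 100 * π.K)) := by
    refine h1.trans ?_
    rw [Real.sinh_eq]
    set x := 3 * (45 / 100 * π.K) with hx
    have hx0 : 47 / 10 ≤ x := by rw [hx]; linarith
    have h4 := Real.sum_le_exp_of_nonneg (x := x) (by linarith) 6
    simp only [Finset.sum_range_succ, Finset.range_zero, Finset.sum_empty, Nat.factorial] at h4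
    norm_num at h4
    have h5 : Real.exp (-x) ≤ 1 := Real.exp_le_one_iff.mpr (by linarith)
    have h6 : 9 * π.K = 20 / 3 * x := by rw [hx]; ring
    rw [h6]
    have h7 : x * (47 / 10) ≤ x ^ 2 := by nlinarith
    have h8 : x * (47 / 10) ^ 2 ≤ x ^ 3 := by nlinarith
    have h9 : x * (47 / 10) ^ 3 ≤ x ^ 4 := by nlinarith
    have h10 : x * (47 / 10) ^ 4 ≤ x ^ 5 := by nlinarith
    linarith
  have h4 := Real.sinh_le_sinh.mp (show Real.sinh (3 * π.k) ≤ _ from h3)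
  linarith

end Par

end Pool.Agent.Helper58.Robin
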