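import Pool.Agent.Helper58.Robin.Rayleigh

/-!
# The equilateral triangle maximises the lowest Robin eigenvalue for negative parameters
-/

open MeasureTheory Set

open scoped InnerProductSpace

namespace Pool.Agent.Helper58.Robin

lemma GG_scale (s xa xb xc : ℝ) (v : ℝ × ℝ → ℝ) : 
    GG (s * xa) (s * xb) (s * xc) v = s * GG xa xb xc v := by
  unfold GG
  rw [← MeasureTheory.integral_const_mul]
  congr 1
  funext q
  ring

lemma BB_scale (s ya yb yc : ℝ) (v : ℝ × ℝ → ℝ) : 
    BB (s * ya) (s * yb) (s * yc) v = s * BB ya yb yc v := by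
  unfold BB
  ring

/-- relabelling the vertices -/
lemma robinQuotients_rot (α : ℝ) (a b c : E2) : robinQuotients α a b c = robinQuotients α b c a := by
  have h : ({b, c, a} : Set E2) = {a, b, c} := by
    ext x; simp only [mem_insert_iff, mem_singleton_iff]; tauto
  unfold robinQuotients
  rw [h]
  ext r
  simp only [mem_ofPred_eq]
  constructor
  · rintro ⟨u, hu, hpos, hr⟩
    refine ⟨u, hu, hpos, ?_⟩
    rw [hr]; ring
  · rintro ⟨u, hu, hpos, hr⟩
    refine ⟨u, hu, hpos, ?_⟩
    rw [hr]; ring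

lemma inner_sides (a b c : E2) : 
    ⟪b - a, c - a⟫_ℝ = (dist c a ^ 2 + dist a b ^ 2 - dist b c ^ 2) / 2 := by
  have e1 : dist a b = ‖b - a‖ := by rw [dist_comm, dist_eq_norm]
  have e2 : dist c a = ‖c - a‖ := dist_eq_norm c a
  have e3 : dist b c ^ 2 = ‖b - a‖ ^ 2 + ‖c - a‖ ^ 2 - 2 * ⟪b - a, c - a⟫_ℝ := by
    have : b - c = (b - a) - (c - a) := by abel
    rw [dist_eq_norm, this, norm_sub_sq_real]; ring
  rw [e3, e1, e2]; ring

lemma dd_sides (a b c : E2) : 
    dd (b - a) (c - a) ^ 2 = dist c a ^ 2 * dist a b ^ 2 - 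
      ((dist c a ^ 2 + dist a b ^ 2 - dist b c ^ 2) / 2) ^ 2 := by
  have e1 : dist a b = ‖b - a‖ := by rw [dist_comm, dist_eq_norm]
  have e2 : dist c a = ‖c - a‖ := dist_eq_norm c a
  rw [dd_sq, inner_sides, ← e1, ← e2]; ring

lemma volume_Tri_ne_top : volume Tri ≠ ⊤ := isCompact_Tri.measure_lt_top.ne

lemma dd_ne_zero {a b c : E2} (h : 0 < volume (convexHull ℝ {a, b, c})) : 
    dd (b - a) (c - a) ≠ 0 := by
  intro h0
  rw [volume_hull, h0] at h
  simp at h

/-- nonempty and bounded from below -/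
lemma nonempty_bddBelow {α : ℝ} (hα : α ≤ 0) {a b c : E2} (h : dd (b - a) (c - a) ≠ 0) : 
    (robinQuotients α a b c).Nonempty ∧ BddBelow (robinQuotients α a b c) := by
  have habs : 0 < |dd (b - a) (c - a)| := abs_pos.mpr h
  constructor
  · refine ⟨_, (mem_robinQuotients h α _).mpr ⟨fun _ => 1, contDiff_const, 
      DD_pos continuous_const (fun _ => one_ne_zero), rfl⟩⟩
  · have hdd := dd_sides a b c
    have hddpos : 0 < dd (b - a) (c - a) ^ 2 := by positivity
    have hxb : 0 < dist c a ^ 2 := by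
      rcases (sq_nonneg (dist c a)).lt_or_eq with h1 | h1
      · exact h1
      · rw [← h1] at hdd; nlinarith [sq_nonneg ((0 + dist a b ^ 2 - dist b c ^ 2) / 2)]
    have hxc : 0 < dist a b ^ 2 := by
      rcases (sq_nonneg (dist a b)).lt_or_eq with h1 | h1
      · exact h1
      · rw [← h1] at hdd; nlinarith [sq_nonneg ((dist c a ^ 2 + 0 - dist b c ^ 2) / 2)]
    obtain ⟨J, hJ⟩ : ∃ x, x = |dd (b - a) (c - a)| := ⟨_, rfl⟩
    have hJ0 : 0 < J := by rw [hJ]; exact habs
    obtain ⟨C, hC⟩ := bdd_below (xa := dist b c ^ 2) (xb := dist c a ^ 2) (xc := dist a b ^ 2) 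
      (ya := dist b c) (yb := dist c a) (yc := dist a b) (κ := -α * J / 3) hxb hxc 
      (by rw [← hdd]; exact hddpos) (by have : 0 ≤ -α := by linarith
                                        positivity) dist_nonneg dist_nonneg dist_nonneg
    refine ⟨-(C / J ^ 2), ?_⟩
    intro r hr
    obtain ⟨v, hv, hpos, rfl⟩ := (mem_robinQuotients h α _).mp hr
    have h1 := hC v hv
    unfold RQ
    rw [← hJ, le_div_iff₀ (by positivity)]
    have h2 : -(C / J ^ 2) * (J * DD v) = (-(C * DD v)) / J := by field_simp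
    have h3 : 1 / J * GG (dist b c ^ 2) (dist c a ^ 2) (dist a b ^ 2) v + 
        α * BB (dist b c) (dist c a) (dist a b) v = 
        (GG (dist b c ^ 2) (dist c a ^ 2) (dist a b ^ 2) v - 
          3 * (-α * J / 3) * BB (dist b c) (dist c a) (dist a b) v) / J := by field_simp; ring
    rw [h2, h3]
    exact div_le_div_of_nonneg_right h1 hJ0.le

/-- the comparison when `a b c` has its smallest side opposite `a` -/
lemma compare {α : ℝ} (hα : α < 0) {a b c e f g : E2} (hT : dd (b - a) (c - a) ≠ 0) 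
    (hTE : |dd (b - a) (c - a)| = |dd (f - e) (g - e)|) (h1 : dist e f = dist f g) 
    (h2 : dist f g = dist g e) (hab : dist b c ≤ dist c a) (hac : dist b c ≤ dist a b) : 
    sInf (robinQuotients α a b c) ≤ sInf (robinQuotients α e f g) := by
  obtain ⟨J, hJ⟩ : ∃ x, x = |dd (b - a) (c - a)| := ⟨_, rfl⟩
  have hJ0 : 0 < J := by rw [hJ]; exact abs_pos.mpr hT
  have hE : dd (f - e) (g - e) ≠ 0 := by
    rw [← abs_pos, ← hTE, ← hJ]; exact hJ0
  have hJE : J = |dd (f - e) (g - e)| := by rw [hJ, hTE]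
  obtain ⟨l, hl⟩ : ∃ x, x = dist g e := ⟨_, rfl⟩
  have hJl : J ^ 2 = 3 / 4 * l ^ 4 := by
    rw [hJE, sq_abs, dd_sides, h1, h2, ← hl]; ring
  have hl0 : 0 < l := by
    have h0 : 0 ≤ l := by rw [hl]; exact dist_nonneg
    rcases h0.lt_or_eq with h | h
    · exact h
    · rw [← h] at hJl
      have : 0 < J ^ 2 := by positivity
      norm_num at hJl
      exact absurd hJl hJ0.ne'
  -- the normalised sides
  obtain ⟨ya, hya⟩ : ∃ x, x = dist b c / l := ⟨_, rfl⟩
  obtain ⟨yb, hyb⟩ : ∃ x, x = dist c a / l := ⟨_, rfl⟩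
  obtain ⟨yc, hyc⟩ : ∃ x, x = dist a b / l := ⟨_, rfl⟩
  have da : dist b c = l * ya := by rw [hya]; field_simp
  have db : dist c a = l * yb := by rw [hyb]; field_simp
  have dc : dist a b = l * yc := by rw [hyc]; field_simp
  have hJT : J ^ 2 = dist c a ^ 2 * dist a b ^ 2 - 
      ((dist c a ^ 2 + dist a b ^ 2 - dist b c ^ 2) / 2) ^ 2 := by
    rw [hJ, sq_abs, dd_sides]
  have harea : (ya + yb + yc) * ((yb + yc - ya) * (ya + yc - yb) * (ya + yb - yc)) = 3 := by
    have hl4 : l ^ 4 ≠ 0 := by positivity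
    have : l ^ 4 * ((ya + yb + yc) * ((yb + yc - ya) * (ya + yc - yb) * (ya + yb - yc))) = l ^ 4 * 3 := by
      rw [da, db, dc] at hJT
      nlinarith [hJT, hJl]
    exact mul_left_cancel₀ hl4 this
  have t1 : 0 ≤ yb + yc - ya := by
    have : dist b c ≤ dist b a + dist a c := dist_triangle b a c
    rw [dist_comm b a, dist_comm a c, da, db, dc] at this
    nlinarith
  have t2 : 0 ≤ ya + yc - yb := by
    have : dist c a ≤ dist c b + dist b a := dist_triangle c b a
    rw [dist_comm c b, dist_comm b a, da, db, dc] at this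
    nlinarith
  have t3 : 0 ≤ ya + yb - yc := by
    have : dist a b ≤ dist a c + dist c b := dist_triangle a c b
    rw [dist_comm a c, dist_comm c b, da, db, dc] at this
    nlinarith
  have s1 : 0 < yb + yc - ya := by
    rcases t1.lt_or_eq with h | h
    · exact h
    · rw [← h] at harea; norm_num at harea
  have s2 : 0 < ya + yc - yb := by
    rcases t2.lt_or_eq with h | h
    · exact h
    · rw [← h] at harea; norm_num at harea
  have s3 : 0 < ya + yb - yc := by
    rcases t3.lt_or_eq with h | h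
    · exact h
    · rw [← h] at harea; norm_num at harea
  -- the parameter
  have hκ0 : 0 < -α * J / (3 * l) := by
    have : 0 < -α := by linarith
    positivity
  obtain ⟨π, hπ⟩ := exists_par hκ0
  have hk := π.hk
  obtain ⟨v, hv, hpos, htr⟩ := exists_trial π s1 s2 s3 harea (by rw [hya, hyb]; gcongr) 
    (by rw [hya, hyc]; gcongr)
  have hαeq : α = -(3 * (π.k * π.t)) * l / J := by rw [hπ]; field_simp
  have key : ∀ ya yb yc : ℝ, ∀ v : ℝ × ℝ → ℝ, 0 < DD v → 
      (1 / J * GG ((l * ya) ^ 2) ((l * yb) ^ 2) ((l * yc) ^ 2) v + 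
        α * BB (l * ya) (l * yb) (l * yc) v) / (J * DD v) = 
      4 / (3 * l ^ 2) * ((GG (ya ^ 2) (yb ^ 2) (yc ^ 2) v - 3 * (π.k * π.t) * BB ya yb yc v) / DD v) := by
    intro ya yb yc v hD
    rw [mul_pow, mul_pow, mul_pow, GG_scale, BB_scale, hαeq]
    have : (4 / (3 * l ^ 2)) = l ^ 2 / J ^ 2 := by
      rw [hJl]; field_simp
    rw [this]
    field_simp
    ring
  calc sInf (robinQuotients α a b c) ≤ RQ α a b c v := 
        csInf_le (nonempty_bddBelow hα.le hT).2 ((mem_robinQuotients hT α _).mpr ⟨v, hv, hpos, rfl⟩)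
    _ ≤ 4 / (3 * l ^ 2) * (-(9 * π.k ^ 2)) := by
        unfold RQ
        rw [← hJ, da, db, dc, key ya yb yc v hpos]
        apply mul_le_mul_of_nonneg_left _ (by positivity)
        rw [div_le_iff₀ hpos]
        linarith
    _ ≤ sInf (robinQuotients α e f g) := by
        apply le_csInf (nonempty_bddBelow hα.le hE).1
        intro r hr
        obtain ⟨w, hw, hwpos, rfl⟩ := (mem_robinQuotients hE α _).mp hr
        have hg := ground π hw
        unfold RQ
        have e1 : dist f g = l * 1 := by rw [hl, mul_one, h2]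
        have e2 : dist g e = l * 1 := by rw [hl, mul_one]
        have e3 : dist e f = l * 1 := by rw [hl, mul_one, h1, h2]
        rw [← hJE, e1, e2, e3, key 1 1 1 w hwpos]
        apply mul_le_mul_of_nonneg_left _ (by positivity)
        rw [le_div_iff₀ hwpos, one_pow]
        linarith

/-- **The equilateral triangle maximises the lowest Robin eigenvalue for `α < 0`.** -/
theorem main : ∀ α : ℝ, α < 0 → ∀ a b c e f g : EuclideanSpace ℝ (Fin 2),
    0 < volume (convexHull ℝ {a, b, c}) →
    volume (convexHull ℝ {a, b, c}) = volume (convexHull ℝ {e, f, g}) →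
    dist e f = dist f g → dist f g = dist g e →
    ((robinQuotients α a b c).Nonempty ∧ BddBelow (robinQuotients α a b c)) ∧
    ((robinQuotients α e f g).Nonempty ∧ BddBelow (robinQuotients α e f g)) ∧
    robinEigenvalue α a b c ≤ robinEigenvalue α e f g := by
  intro α hα a b c e f g hvol heq h1 h2
  have hT : dd (b - a) (c - a) ≠ 0 := dd_ne_zero hvol
  have hE : dd (f - e) (g - e) ≠ 0 := dd_ne_zero (heq ▸ hvol)
  refine ⟨nonempty_bddBelow hα.le hT, nonempty_bddBelow hα.le hE, ?_⟩
  have hTE : ∀ a b c : E2, volume (convexHull ℝ {a, b, c}) = volume (convexHull ℝ {e, f, g}) → 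
      |dd (b - a) (c - a)| = |dd (f - e) (g - e)| := by
    intro a b c heq
    rw [volume_hull, volume_hull, ENNReal.mul_left_inj volume_Tri_pos.ne' volume_Tri_ne_top, 
      ENNReal.ofReal_eq_ofReal_iff (abs_nonneg _) (abs_nonneg _)] at heq
    exact heq
  have hset : ({b, c, a} : Set E2) = {a, b, c} := by
    ext x; simp only [mem_insert_iff, mem_singleton_iff]; tauto
  have hset' : ({c, a, b} : Set E2) = {a, b, c} := by
    ext x; simp only [mem_insert_iff, mem_singleton_iff]; tauto
  unfold robinEigenvalue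
  by_cases ha : dist b c ≤ dist c a ∧ dist b c ≤ dist a b
  · exact compare hα hT (hTE a b c heq) h1 h2 ha.1 ha.2
  by_cases hb : dist c a ≤ dist a b ∧ dist c a ≤ dist b c
  · rw [robinQuotients_rot α a b c]
    exact compare hα (dd_ne_zero (by rw [hset]; exact hvol)) (hTE b c a (by rw [hset]; exact heq)) 
      h1 h2 hb.1 hb.2
  · have hc : dist a b ≤ dist b c ∧ dist a b ≤ dist c a := by
      rw [not_and_or, not_le, not_le] at ha hb
      rcases ha with ha | ha <;> rcases hb with hb | hb <;> constructor <;> linarith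
    rw [robinQuotients_rot α a b c, robinQuotients_rot α b c a]
    exact compare hα (dd_ne_zero (by rw [hset']; exact hvol)) (hTE c a b (by rw [hset']; exact heq)) 
      h1 h2 hc.1 hc.2

end Pool.Agent.Helper58.Robin
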