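import Pool.Agent.Helper58.Robin.Transfer

/-!
# The Rayleigh quotients on the standard triangle
-/

open MeasureTheory Set

open scoped InnerProductSpace

namespace Pool.Agent.Helper58.Robin

lemma contDiff_phi (a b c : E2) {n : WithTop ℕ∞} : ContDiff ℝ n (phi a b c) := by
  unfold phi; fun_prop

lemma hasFDerivAt_phi_fst (a b c : E2) {u : E2 → ℝ} (hu : ContDiff ℝ 1 u) (q : ℝ × ℝ) : 
    ps (fun q => u (phi a b c q)) q = fderiv ℝ u (phi a b c q) (b - a) := by
  obtain ⟨s, t⟩ := q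
  have hv : ContDiff ℝ 1 (fun q => u (phi a b c q)) := hu.comp (contDiff_phi a b c)
  refine (hasDerivAt_ps hv s t).unique ?_
  have h1 : HasDerivAt (fun s : ℝ => phi a b c (s, t)) (b - a) s := by
    have h2 := (((hasDerivAt_id s).smul_const (b - a)).add_const (t • (c - a))).const_add a
    exact h2.congr_deriv (one_smul ℝ _)
  exact (((hu.differentiable one_ne_zero) (phi a b c (s, t))).hasFDerivAt).comp_hasDerivAt s h1

lemma hasFDerivAt_phi_snd (a b c : E2) {u : E2 → ℝ} (hu : ContDiff ℝ 1 u) (q : ℝ × ℝ) : 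
    pt (fun q => u (phi a b c q)) q = fderiv ℝ u (phi a b c q) (c - a) := by
  obtain ⟨s, t⟩ := q
  have hv : ContDiff ℝ 1 (fun q => u (phi a b c q)) := hu.comp (contDiff_phi a b c)
  refine (hasDerivAt_pt hv s t).unique ?_
  have h1 : HasDerivAt (fun t : ℝ => phi a b c (s, t)) (c - a) t := by
    have h2 := (((hasDerivAt_id t).smul_const (c - a)).const_add (s • (b - a))).const_add a
    exact h2.congr_deriv (one_smul ℝ _)
  exact (((hu.differentiable one_ne_zero) (phi a b c (s, t))).hasFDerivAt).comp_hasDerivAt t h1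

/-- the Rayleigh quotient in the standard triangle -/
noncomputable def RQ (α : ℝ) (a b c : E2) (v : ℝ × ℝ → ℝ) : ℝ := 
  (1 / |dd (b - a) (c - a)| * GG (dist b c ^ 2) (dist c a ^ 2) (dist a b ^ 2) v + 
    α * BB (dist b c) (dist c a) (dist a b) v) / (|dd (b - a) (c - a)| * DD v)

lemma transfer {a b c : E2} (h : dd (b - a) (c - a) ≠ 0) (α : ℝ) {u : E2 → ℝ} (hu : ContDiff ℝ 1 u) : 
    (∫ x in convexHull ℝ {a, b, c}, u x ^ 2) = |dd (b - a) (c - a)| * DD (fun q => u (phi a b c q)) ∧ 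
    ((∫ x in convexHull ℝ {a, b, c}, ‖fderiv ℝ u x‖ ^ 2) +
        α * ((∫ t in (0:ℝ)..1, u (a + t • (b - a)) ^ 2) * dist a b +
             (∫ t in (0:ℝ)..1, u (b + t • (c - b)) ^ 2) * dist b c +
             (∫ t in (0:ℝ)..1, u (c + t • (a - c)) ^ 2) * dist c a)) /
        (∫ x in convexHull ℝ {a, b, c}, u x ^ 2) = RQ α a b c (fun q => u (phi a b c q)) := by
  have h1 : (∫ x in convexHull ℝ {a, b, c}, u x ^ 2) = 
      |dd (b - a) (c - a)| * DD (fun q => u (phi a b c q)) := integral_hull h _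
  refine ⟨h1, ?_⟩
  have habs : 0 < |dd (b - a) (c - a)| := abs_pos.mpr h
  have h2 : (∫ x in convexHull ℝ {a, b, c}, ‖fderiv ℝ u x‖ ^ 2) = 
      1 / |dd (b - a) (c - a)| * GG (dist b c ^ 2) (dist c a ^ 2) (dist a b ^ 2) 
        (fun q => u (phi a b c q)) := by
    rw [integral_hull h]
    unfold GG
    rw [← MeasureTheory.integral_const_mul, ← MeasureTheory.integral_const_mul]
    congr 1
    funext q
    rw [hasFDerivAt_phi_fst a b c hu, hasFDerivAt_phi_snd a b c hu]
    have h3 := norm_form (b - a) (c - a) (fderiv ℝ u (phi a b c q))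
    have e1 : dist a b = ‖b - a‖ := by rw [dist_comm, dist_eq_norm]
    have e2 : dist c a = ‖c - a‖ := dist_eq_norm c a
    have e3 : dist b c ^ 2 = ‖b - a‖ ^ 2 + ‖c - a‖ ^ 2 - 2 * ⟪b - a, c - a⟫_ℝ := by
      have : b - c = (b - a) - (c - a) := by abel
      rw [dist_eq_norm, this, norm_sub_sq_real]; ring
    rw [e1, e2, e3]
    rw [← mul_right_inj' habs.ne', ← mul_assoc, ← mul_assoc, mul_one_div_cancel habs.ne', one_mul, 
      ← sq, sq_abs, mul_comm, h3]
    ring
  have h3 : (∫ t in (0:ℝ)..1, u (b + t • (c - b)) ^ 2) = 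
      ∫ τ in (0 : ℝ)..1, u (phi a b c (τ, 1 - τ)) ^ 2 := by
    have h4 := intervalIntegral.integral_comp_sub_left (fun t => u (b + t • (c - b)) ^ 2) 
      (a := 0) (b := 1) 1
    simp only [sub_self, sub_zero] at h4
    rw [← h4]
    congr 1
    funext τ
    congr 2
    unfold phi
    simp only [smul_sub, sub_smul, one_smul]
    abel
  have h4 : (∫ t in (0:ℝ)..1, u (c + t • (a - c)) ^ 2) = 
      ∫ τ in (0 : ℝ)..1, u (phi a b c (0, τ)) ^ 2 := by
    have h4 := intervalIntegral.integral_comp_sub_left (fun t => u (c + t • (a - c)) ^ 2) 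
      (a := 0) (b := 1) 1
    simp only [sub_self, sub_zero] at h4
    rw [← h4]
    congr 1
    funext τ
    congr 2
    unfold phi
    simp only [smul_sub, sub_smul, one_smul, zero_smul, zero_add]
    abel
  have h5 : (∫ t in (0:ℝ)..1, u (a + t • (b - a)) ^ 2) = 
      ∫ τ in (0 : ℝ)..1, u (phi a b c (τ, 0)) ^ 2 := by
    congr 1
    funext τ
    congr 2
    unfold phi
    simp only [zero_smul, add_zero]
  rw [h1, h2, h3, h4, h5]
  unfold RQ BB
  ring

/-- barycentric coordinates -/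
noncomputable def psi (a b c : E2) (x : E2) : ℝ × ℝ := 
  (dd (x - a) (c - a) / dd (b - a) (c - a), dd (b - a) (x - a) / dd (b - a) (c - a))

lemma contDiff_psi (a b c : E2) {n : WithTop ℕ∞} : ContDiff ℝ n (psi a b c) := by
  unfold psi dd
  have h0 : ContDiff ℝ n (fun x : E2 => x 0) := (EuclideanSpace.proj 0 : E2 →L[ℝ] ℝ).contDiff
  have h1 : ContDiff ℝ n (fun x : E2 => x 1) := (EuclideanSpace.proj 1 : E2 →L[ℝ] ℝ).contDiff
  simp only [PiLp.sub_apply]
  fun_prop

lemma psi_phi {a b c : E2} (h : dd (b - a) (c - a) ≠ 0) (q : ℝ × ℝ) : psi a b c (phi a b c q) = q := by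
  have e1 : dd (phi a b c q - a) (c - a) = q.1 * dd (b - a) (c - a) := by
    unfold dd phi
    simp only [PiLp.add_apply, PiLp.smul_apply, PiLp.sub_apply, smul_eq_mul]
    ring
  have e2 : dd (b - a) (phi a b c q - a) = q.2 * dd (b - a) (c - a) := by
    unfold dd phi
    simp only [PiLp.add_apply, PiLp.smul_apply, PiLp.sub_apply, smul_eq_mul]
    ring
  unfold psi
  rw [e1, e2, mul_div_cancel_right₀ _ h, mul_div_cancel_right₀ _ h]

/-- the set of Rayleigh quotients -/
lemma mem_robinQuotients {a b c : E2} (h : dd (b - a) (c - a) ≠ 0) (α r : ℝ) : 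
    r ∈ robinQuotients α a b c ↔ 
      ∃ v : ℝ × ℝ → ℝ, ContDiff ℝ 1 v ∧ 0 < DD v ∧ r = RQ α a b c v := by
  have habs : 0 < |dd (b - a) (c - a)| := abs_pos.mpr h
  constructor
  · rintro ⟨u, hu, hpos, rfl⟩
    obtain ⟨h1, h2⟩ := transfer h α hu
    refine ⟨fun q => u (phi a b c q), hu.comp (contDiff_phi a b c), ?_, h2⟩
    rw [h1] at hpos
    exact pos_of_mul_pos_right hpos habs.le
  · rintro ⟨v, hv, hpos, rfl⟩
    have hu : ContDiff ℝ 1 (fun x => v (psi a b c x)) := hv.comp (contDiff_psi a b c)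
    obtain ⟨h1, h2⟩ := transfer h α hu
    simp only [psi_phi h] at h1 h2
    refine ⟨fun x => v (psi a b c x), hu, ?_, h2.symm⟩
    rw [h1]
    exact mul_pos habs hpos

end Pool.Agent.Helper58.Robin
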