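import Pool.Agent.Helper58.Robin.KBound

/-!
# The shape inequalities
-/

open MeasureTheory Set

namespace Pool.Agent.Helper58.Robin

/-- Shape data: `W, u, v` are twice the tangent lengths of a triangle (with the equilateral
triangle of the same area having side `1`), `W` the largest. -/
structure Shape where
  p : ℝ
  W : ℝ
  u : ℝ
  v : ℝ
  hW : 0 < W
  hu : 0 < u
  hv : 0 < v
  huW : u ≤ W
  hvW : v ≤ W
  hsum : W + u + v = 3 * p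
  hprod : p * (W * u * v) = 1

namespace Shape

variable (σ : Shape)

lemma hp0 : 0 < σ.p := by
  have := σ.hsum; have := σ.hW; have := σ.hu; have := σ.hv; linarith

lemma hp1 : 1 ≤ σ.p := by
  by_contra hcon
  push Not at hcon
  have h0 := σ.hp0
  have hW := σ.hW
  have hu := σ.hu
  have hv := σ.hv
  have h1 : σ.W * σ.u * σ.v ≤ σ.p ^ 3 := by
    have hp : σ.p = (σ.W + σ.u + σ.v) / 3 := by linarith [σ.hsum]
    rw [hp]
    nlinarith [mul_nonneg hW.le (sq_nonneg (σ.u - σ.v)), mul_nonneg hu.le (sq_nonneg (σ.W - σ.v)), 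
      mul_nonneg hv.le (sq_nonneg (σ.W - σ.u)), mul_nonneg (add_pos (add_pos hW hu) hv).le (sq_nonneg (σ.W - σ.u)), 
      mul_nonneg (add_pos (add_pos hW hu) hv).le (sq_nonneg (σ.W - σ.v)), 
      mul_nonneg (add_pos (add_pos hW hu) hv).le (sq_nonneg (σ.u - σ.v))]
  have h2 := σ.hprod
  have h3 : σ.p * (σ.W * σ.u * σ.v) ≤ σ.p * σ.p ^ 3 := mul_le_mul_of_nonneg_left h1 h0.le
  have h4 : σ.p * σ.p ^ 3 < 1 := by
    have h5 : σ.p ^ 4 < 1 := pow_lt_one₀ h0.le hcon (by norm_num)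
    linarith [show σ.p * σ.p ^ 3 = σ.p ^ 4 by ring]
  linarith

lemma hpW : σ.p ≤ σ.W := by
  have := σ.hsum; have := σ.huW; have := σ.hvW; linarith

/-- sum of squared deviations -/
noncomputable def S2 : ℝ := (σ.W - σ.p) ^ 2 + (σ.u - σ.p) ^ 2 + (σ.v - σ.p) ^ 2

lemma S2_nonneg : 0 ≤ σ.S2 := by unfold S2; positivity

lemma S2_eq : σ.S2 * (σ.p * σ.W) = 2 * (σ.p ^ 4 - 1 + σ.p * (σ.W - σ.p) ^ 3) := by
  unfold S2
  have h1 : σ.v = 3 * σ.p - σ.W - σ.u := by linarith [σ.hsum]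
  have h2 := σ.hprod
  rw [h1] at h2 ⊢
  linear_combination (-2) * h2

lemma S2_ge : 3 / 2 * (σ.W - σ.p) ^ 2 ≤ σ.S2 := by
  unfold S2
  have h1 : σ.v = 3 * σ.p - σ.W - σ.u := by linarith [σ.hsum]
  rw [h1]
  nlinarith [sq_nonneg (2 * σ.u - (3 * σ.p - σ.W))]

lemma W_lt : σ.W < 3 * σ.p := by
  have := σ.hsum; have := σ.hu; have := σ.hv; linarith

lemma S2_le : σ.S2 * (σ.p * (4 * σ.p - σ.W)) ≤ 6 * (σ.p ^ 4 - 1) := by
  have hp := σ.hp0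
  have hW := σ.hW
  have h1 := σ.S2_eq
  have h2 := σ.S2_ge
  have h3 := σ.W_lt
  have h4 := σ.hpW
  have h5 : 0 < 4 * σ.p - σ.W := by linarith
  have hpW : 0 < σ.p * σ.W := mul_pos hp hW
  -- `p ω² (3p - ω) ≤ 4 (p⁴ - 1)`
  have h6 : σ.p * (σ.W - σ.p) ^ 2 * (4 * σ.p - σ.W) ≤ 4 * (σ.p ^ 4 - 1) := by
    have h7 := mul_le_mul_of_nonneg_right h2 hpW.le
    rw [h1] at h7
    nlinarith
  have h8 : σ.S2 * (σ.p * (4 * σ.p - σ.W)) * σ.W ≤ 6 * (σ.p ^ 4 - 1) * σ.W := by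
    have h9 : σ.S2 * (σ.p * (4 * σ.p - σ.W)) * σ.W = (4 * σ.p - σ.W) * (σ.S2 * (σ.p * σ.W)) := by ring
    rw [h9, h1]
    have h10 := mul_le_mul_of_nonneg_left h6 (by linarith : 0 ≤ 2 * (σ.W - σ.p))
    nlinarith
  exact le_of_mul_le_mul_right h8 hW

/-- case A -/
lemma caseA {t : ℝ} (ht : t ^ 2 ≤ 2025 / 10000) (hB : t ^ 2 * (1 + 3 * (σ.p * σ.W) ^ 2) ≤ 1) : 
    t ^ 2 * (3 * (σ.p - 1) * (σ.p + 3) + σ.S2 / 4) ≤ 3 * (σ.p - 1) := by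
  have hp := σ.hp0
  have hp1 := σ.hp1
  have h1 := σ.S2_le
  have h3 := σ.W_lt
  have h4 := σ.hpW
  have hS := σ.S2_nonneg
  have ht0 : 0 ≤ t ^ 2 := sq_nonneg t
  have hpp : σ.p ^ 4 - 1 = (σ.p - 1) * ((σ.p + 1) * (σ.p ^ 2 + 1)) := by ring
  have hpp2 : (σ.p + 1) * (σ.p ^ 2 + 1) ≤ 2 * (σ.p + 1) * σ.p ^ 2 := by nlinarith
  have hp10 : 0 ≤ σ.p - 1 := by linarith
  have hp4 : σ.p ≤ σ.p ^ 4 := by
    have : 1 ≤ σ.p ^ 3 := one_le_pow₀ hp1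
    nlinarith
  rcases le_total (3 / 2 * σ.p) σ.W with hc | hc
  · -- `W ≥ 3p/2`
    have h5 : σ.S2 * σ.p ^ 2 ≤ 6 * (σ.p ^ 4 - 1) := by
      refine le_trans ?_ h1
      apply mul_le_mul_of_nonneg_left _ hS
      nlinarith
    have h6 : σ.S2 ≤ 12 * (σ.p - 1) * (σ.p + 1) := by
      have h7 : σ.S2 * σ.p ^ 2 ≤ 12 * (σ.p - 1) * (σ.p + 1) * σ.p ^ 2 := by
        refine h5.trans ?_
        rw [hpp]
        nlinarith [mul_le_mul_of_nonneg_left hpp2 hp10]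
      exact le_of_mul_le_mul_right h7 (by positivity)
    have h7 : 3 * (σ.p - 1) * (σ.p + 3) + σ.S2 / 4 ≤ 3 * (σ.p - 1) * (2 * σ.p + 4) := by nlinarith
    have h8 : t ^ 2 * (2 * σ.p + 4) ≤ 1 := by
      have h9 : 27 / 4 * σ.p ^ 4 ≤ 3 * (σ.p * σ.W) ^ 2 := by
        have h10 : (3 / 2 * σ.p ^ 2) ^ 2 ≤ (σ.p * σ.W) ^ 2 := by
          apply pow_le_pow_left₀ (by positivity)
          nlinarith
        nlinarith
      have h10 : 2 * σ.p + 4 ≤ 1 + 3 * (σ.p * σ.W) ^ 2 := by nlinarith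
      exact (mul_le_mul_of_nonneg_left h10 ht0).trans hB
    calc t ^ 2 * (3 * (σ.p - 1) * (σ.p + 3) + σ.S2 / 4) 
        ≤ t ^ 2 * (3 * (σ.p - 1) * (2 * σ.p + 4)) := mul_le_mul_of_nonneg_left h7 ht0
      _ = 3 * (σ.p - 1) * (t ^ 2 * (2 * σ.p + 4)) := by ring
      _ ≤ 3 * (σ.p - 1) * 1 := mul_le_mul_of_nonneg_left h8 (by linarith)
      _ = _ := by ring
  · -- `W ≤ 3p/2`
    have h5 : σ.S2 * (5 / 2 * σ.p ^ 2) ≤ 6 * (σ.p ^ 4 - 1) := by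
      refine le_trans ?_ h1
      apply mul_le_mul_of_nonneg_left _ hS
      nlinarith
    have h6 : σ.S2 ≤ 24 / 5 * (σ.p - 1) * (σ.p + 1) := by
      have h7 : σ.S2 * σ.p ^ 2 ≤ 24 / 5 * (σ.p - 1) * (σ.p + 1) * σ.p ^ 2 := by
        have h8 : σ.S2 * σ.p ^ 2 ≤ 12 / 5 * (σ.p ^ 4 - 1) := by linarith
        refine h8.trans ?_
        rw [hpp]
        nlinarith [mul_le_mul_of_nonneg_left hpp2 hp10]
      exact le_of_mul_le_mul_right h7 (by positivity)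
    have h7 : 3 * (σ.p - 1) * (σ.p + 3) + σ.S2 / 4 ≤ 3 * (σ.p - 1) * (7 / 5 * σ.p + 17 / 5) := by 
      nlinarith
    have h8 : t ^ 2 * (7 / 5 * σ.p + 17 / 5) ≤ 1 := by
      rcases le_total σ.p (109 / 100) with hc2 | hc2
      · nlinarith
      · have h9 : 3 * σ.p ^ 4 ≤ 3 * (σ.p * σ.W) ^ 2 := by
          have h10 : (σ.p ^ 2) ^ 2 ≤ (σ.p * σ.W) ^ 2 := by
            apply pow_le_pow_left₀ (by positivity)
            nlinarith
          nlinarith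
        have h11 : (129 / 100 : ℝ) ≤ σ.p ^ 3 := by
          have : (109 / 100 : ℝ) ^ 3 ≤ σ.p ^ 3 := pow_le_pow_left₀ (by norm_num) hc2 3
          norm_num at this
          linarith
        have h10 : 7 / 5 * σ.p + 17 / 5 ≤ 1 + 3 * (σ.p * σ.W) ^ 2 := by nlinarith
        exact (mul_le_mul_of_nonneg_left h10 ht0).trans hB
    calc t ^ 2 * (3 * (σ.p - 1) * (σ.p + 3) + σ.S2 / 4) 
        ≤ t ^ 2 * (3 * (σ.p - 1) * (7 / 5 * σ.p + 17 / 5)) := mul_le_mul_of_nonneg_left h7 ht0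
      _ = 3 * (σ.p - 1) * (t ^ 2 * (7 / 5 * σ.p + 17 / 5)) := by ring
      _ ≤ 3 * (σ.p - 1) * 1 := mul_le_mul_of_nonneg_left h8 (by linarith)
      _ = _ := by ring

end Shape

end Pool.Agent.Helper58.Robin
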