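import Pool.Agent.Helper58.Robin.Exist
import Pool.Agent.Helper58.Robin.Defs

/-!
# Transfer to the standard triangle
-/

open MeasureTheory Set

open scoped InnerProductSpace

namespace Pool.Agent.Helper58.Robin

/-- the Euclidean plane -/
abbrev E2 : Type := EuclideanSpace ℝ (Fin 2)

/-- the identification `ℝ × ℝ ≃ E2` -/
noncomputable def iota : ℝ × ℝ ≃ᵐ E2 := 
  (MeasurableEquiv.finTwoArrow (α := ℝ)).symm.trans (MeasurableEquiv.toLp 2 (Fin 2 → ℝ))

lemma iota_zero (q : ℝ × ℝ) : (iota q) 0 = q.1 := rfl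
lemma iota_one (q : ℝ × ℝ) : (iota q) 1 = q.2 := rfl

lemma iota_mp : MeasurePreserving iota volume volume := 
  (volume_preserving_finTwoArrow ℝ).symm.trans (PiLp.volume_preserving_toLp (Fin 2))

/-- the linear map sending the standard basis to `E, F` -/
noncomputable def LL (E F : E2) : E2 →L[ℝ] E2 := 
  (EuclideanSpace.proj 0 : E2 →L[ℝ] ℝ).smulRight E + (EuclideanSpace.proj 1 : E2 →L[ℝ] ℝ).smulRight F

lemma LL_apply (E F x : E2) : LL E F x = x 0 • E + x 1 • F := by
  simp [LL]

/-- the determinant -/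
def dd (E F : E2) : ℝ := E 0 * F 1 - E 1 * F 0

lemma det_LL (E F : E2) : (LL E F).det = dd E F := by
  unfold ContinuousLinearMap.det
  rw [← LinearMap.det_toMatrix (EuclideanSpace.basisFun (Fin 2) ℝ).toBasis, Matrix.det_fin_two]
  simp only [LinearMap.toMatrix_apply]
  simp [LL_apply, dd]
  ring

lemma dd_sq (E F : E2) : dd E F ^ 2 = ‖E‖ ^ 2 * ‖F‖ ^ 2 - ⟪E, F⟫_ℝ ^ 2 := by
  rw [← real_inner_self_eq_norm_sq, ← real_inner_self_eq_norm_sq]
  simp only [PiLp.inner_apply, Fin.sum_univ_two, RCLike.inner_apply, conj_trivial]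
  unfold dd
  ring

lemma norm_form (E F : E2) (ℓ : E2 →L[ℝ] ℝ) : ‖ℓ‖ ^ 2 * dd E F ^ 2 = 
    ‖F‖ ^ 2 * ℓ E ^ 2 - 2 * ⟪E, F⟫_ℝ * (ℓ E * ℓ F) + ‖E‖ ^ 2 * ℓ F ^ 2 := by
  obtain ⟨w, rfl⟩ := (InnerProductSpace.toDual ℝ E2).surjective ℓ
  rw [LinearIsometryEquiv.norm_map]
  simp only [InnerProductSpace.toDual_apply_apply]
  rw [← real_inner_self_eq_norm_sq, ← real_inner_self_eq_norm_sq, ← real_inner_self_eq_norm_sq]
  simp only [PiLp.inner_apply, Fin.sum_univ_two, RCLike.inner_apply, conj_trivial]
  unfold dd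
  ring

/-- the affine parametrisation of the triangle -/
noncomputable def phi (a b c : E2) (q : ℝ × ℝ) : E2 := a + (q.1 • (b - a) + q.2 • (c - a))

lemma phi_eq (a b c : E2) (q : ℝ × ℝ) : phi a b c q = a + LL (b - a) (c - a) (iota q) := by
  rw [LL_apply, iota_zero, iota_one]; rfl

lemma hull_eq (a b c : E2) : convexHull ℝ {a, b, c} = phi a b c '' Tri := by
  apply Subset.antisymm
  · apply convexHull_min
    · rintro x (rfl | rfl | rfl)
      · exact ⟨(0, 0), ⟨le_refl _, le_refl _, by norm_num⟩, by simp [phi]⟩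
      · exact ⟨(1, 0), ⟨by norm_num, le_refl _, by norm_num⟩, by simp [phi]⟩
      · exact ⟨(0, 1), ⟨le_refl _, by norm_num, by norm_num⟩, by simp [phi]⟩
    · rintro _ ⟨q, ⟨q1, q2, q3⟩, rfl⟩ _ ⟨r, ⟨r1, r2, r3⟩, rfl⟩ s t hs ht hst
      refine ⟨(s * q.1 + t * r.1, s * q.2 + t * r.2), ⟨by simp only; positivity, 
        by simp only; positivity, ?_⟩, ?_⟩
      · simp only
        nlinarith
      · have ht1 : t = 1 - s := by linarith
        subst ht1
        ext i
        simp only [phi, PiLp.add_apply, PiLp.smul_apply, PiLp.sub_apply, smul_eq_mul]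
        ring
  · rintro _ ⟨q, ⟨q1, q2, q3⟩, rfl⟩
    have h1 : phi a b c q = (1 - q.1 - q.2) • a + (q.1 • b + q.2 • c) := by
      unfold phi
      simp only [smul_sub, sub_smul, one_smul]
      abel
    rw [h1]
    have hconv := convex_convexHull ℝ ({a, b, c} : Set E2)
    have ha : a ∈ convexHull ℝ ({a, b, c} : Set E2) := subset_convexHull ℝ _ (by simp)
    have hb : b ∈ convexHull ℝ ({a, b, c} : Set E2) := subset_convexHull ℝ _ (by simp)
    have hc : c ∈ convexHull ℝ ({a, b, c} : Set E2) := subset_convexHull ℝ _ (by simp)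
    have hsum := hconv.sum_mem (t := Finset.univ) (w := ![1 - q.1 - q.2, q.1, q.2]) 
      (z := ![a, b, c]) (by
        intro i _
        fin_cases i
        · simp; linarith
        · simpa using q1
        · simpa using q2) (by 
        simp only [Fin.sum_univ_three, Matrix.cons_val_zero, Matrix.cons_val_one, Matrix.cons_val]
        ring) (by
        intro i _
        fin_cases i
        · exact ha
        · exact hb
        · exact hc)
    simpa [Fin.sum_univ_three, add_assoc] using hsum

lemma image_eq (a b c : E2) : phi a b c '' Tri = (fun y => a + y) '' (LL (b - a) (c - a) '' (iota '' Tri)) := by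
  rw [image_image, image_image]
  apply image_congr
  intro q _
  exact phi_eq a b c q

/-- the area of the triangle -/
lemma volume_hull (a b c : E2) : 
    volume (convexHull ℝ {a, b, c}) = ENNReal.ofReal |dd (b - a) (c - a)| * volume Tri := by
  have hdet : LinearMap.det (LL (b - a) (c - a) : E2 →ₗ[ℝ] E2) = dd (b - a) (c - a) := det_LL _ _
  rw [hull_eq, image_eq, image_add_left, measure_preimage_add, 
    Measure.addHaar_image_continuousLinearMap, hdet]
  congr 1
  have h1 := iota_mp.measure_preimage_equiv (iota '' Tri)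
  rw [iota.injective.preimage_image] at h1
  exact h1.symm

lemma injective_phi {a b c : E2} (h : dd (b - a) (c - a) ≠ 0) : 
    Function.Injective (LL (b - a) (c - a)) := by
  have hdet : LinearMap.det (LL (b - a) (c - a) : E2 →ₗ[ℝ] E2) = dd (b - a) (c - a) := det_LL _ _
  have h2 : IsUnit (LinearMap.det (LL (b - a) (c - a) : E2 →ₗ[ℝ] E2)) := by
    rw [hdet]; exact isUnit_iff_ne_zero.mpr h
  have h3 := (LinearMap.isUnit_iff_isUnit_det _).mpr h2
  exact ((Module.End.isUnit_iff _).mp h3).1

/-- the change of variables -/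
lemma integral_hull {a b c : E2} (h : dd (b - a) (c - a) ≠ 0) (f : E2 → ℝ) : 
    ∫ x in convexHull ℝ {a, b, c}, f x = |dd (b - a) (c - a)| * ∫ q in Tri, f (phi a b c q) := by
  have himg : phi a b c '' Tri = (fun y => a + LL (b - a) (c - a) y) '' (iota '' Tri) := by
    rw [image_image]
    apply image_congr
    intro q _
    exact phi_eq a b c q
  have hm : MeasurableSet (iota '' Tri) := iota.measurableSet_image.mpr measurableSet_Tri
  rw [hull_eq, himg, integral_image_eq_integral_abs_det_fderiv_smul volume hm 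
    (f' := fun _ => LL (b - a) (c - a))]
  · rw [det_LL]
    simp only [smul_eq_mul]
    rw [MeasureTheory.integral_const_mul]
    congr 1
    have h1 := iota_mp.setIntegral_preimage_emb iota.measurableEmbedding 
      (fun y => f (a + LL (b - a) (c - a) y)) (iota '' Tri)
    rw [iota.injective.preimage_image] at h1
    simp only [phi_eq]
    exact h1.symm
  · intro x _
    exact ((LL (b - a) (c - a)).hasFDerivAt.const_add a).hasFDerivWithinAt
  · intro x _ y _ hxy
    exact injective_phi h (add_left_cancel hxy)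

end Pool.Agent.Helper58.Robin
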