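import Mathlib

/-!
# Integration on the standard triangle
-/

open MeasureTheory Set

namespace Pool.Agent.Helper58.Robin

/-- the standard triangle in the plane -/
def Tri : Set (ℝ × ℝ) := {q | 0 ≤ q.1 ∧ 0 ≤ q.2 ∧ q.1 + q.2 ≤ 1}

lemma isClosed_Tri : IsClosed Tri := by
  unfold Tri
  apply IsClosed.inter (isClosed_le continuous_const continuous_fst)
  apply IsClosed.inter (isClosed_le continuous_const continuous_snd)
  exact isClosed_le (continuous_fst.add continuous_snd) continuous_const

lemma Tri_subset : Tri ⊆ Icc (0 : ℝ) 1 ×ˢ Icc (0 : ℝ) 1 := by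
  rintro ⟨s, t⟩ ⟨h1, h2, h3⟩
  simp only at h1 h2 h3
  exact ⟨⟨h1, by linarith⟩, ⟨h2, by linarith⟩⟩

lemma isCompact_Tri : IsCompact Tri :=
  (isCompact_Icc.prod isCompact_Icc).of_isClosed_subset isClosed_Tri Tri_subset

lemma measurableSet_Tri : MeasurableSet Tri := isClosed_Tri.measurableSet

lemma integrableOn_Tri {f : ℝ × ℝ → ℝ} (hf : Continuous f) : IntegrableOn f Tri :=
  hf.continuousOn.integrableOn_compact isCompact_Tri

/-- Fubini on the triangle, first variable inside -/
lemma integral_Tri {f : ℝ × ℝ → ℝ} (hf : Continuous f) : 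
    ∫ q in Tri, f q = ∫ t in (0 : ℝ)..1, ∫ s in (0 : ℝ)..(1 - t), f (s, t) := by
  rw [← MeasureTheory.integral_indicator measurableSet_Tri]
  have hint : Integrable (Tri.indicator f) (volume.prod volume) := by
    rw [← Measure.volume_eq_prod]
    exact (integrableOn_Tri hf).integrable_indicator measurableSet_Tri
  rw [Measure.volume_eq_prod, integral_prod_symm _ hint]
  rw [intervalIntegral.integral_of_le zero_le_one, ← integral_Icc_eq_integral_Ioc, 
    ← MeasureTheory.integral_indicator measurableSet_Icc]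
  apply integral_congr_ae
  filter_upwards with t
  by_cases ht : t ∈ Icc (0 : ℝ) 1
  · rw [indicator_of_mem ht, intervalIntegral.integral_of_le (by linarith [ht.2]), 
      ← integral_Icc_eq_integral_Ioc, ← MeasureTheory.integral_indicator measurableSet_Icc]
    apply integral_congr_ae
    filter_upwards with s
    by_cases hs : s ∈ Icc (0 : ℝ) (1 - t)
    · rw [indicator_of_mem hs, indicator_of_mem]
      exact ⟨hs.1, ht.1, by have := hs.2; simp only; linarith⟩
    · rw [indicator_of_notMem hs, indicator_of_notMem]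
      rintro ⟨h1, h2, h3⟩
      simp only at h1 h2 h3
      exact hs ⟨h1, by linarith⟩
  · rw [indicator_of_notMem ht]
    have : ∀ s, Tri.indicator f (s, t) = 0 := by
      intro s
      apply indicator_of_notMem
      intro h
      exact ht (Tri_subset h).2
    simp only [this, integral_zero]

/-- symmetry `(s, t) ↦ (t, s)` -/
lemma integral_Tri_swap (f : ℝ × ℝ → ℝ) : 
    ∫ q in Tri, f (q.2, q.1) = ∫ q in Tri, f q := by
  have h1 : MeasurePreserving (Prod.swap : ℝ × ℝ → ℝ × ℝ) (volume : Measure (ℝ × ℝ)) volume := 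
    Measure.measurePreserving_swap
  have h2 : MeasurableEmbedding (Prod.swap : ℝ × ℝ → ℝ × ℝ) := 
    MeasurableEquiv.prodComm.measurableEmbedding
  have h3 := h1.setIntegral_preimage_emb h2 f Tri
  have h4 : Prod.swap ⁻¹' Tri = Tri := by
    ext ⟨s, t⟩
    constructor
    · rintro ⟨h1, h2, h3⟩
      simp only [Prod.swap_prod_mk] at h1 h2 h3
      exact ⟨h2, h1, by simp only; linarith⟩
    · rintro ⟨h1, h2, h3⟩
      simp only at h1 h2 h3
      exact ⟨h2, h1, by simp only [Prod.swap_prod_mk]; linarith⟩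
  rw [h4] at h3
  exact h3

/-- symmetry `(s, t) ↦ (1 - s - t, t)` -/
lemma integral_Tri_rot {f : ℝ × ℝ → ℝ} (hf : Continuous f) : 
    ∫ q in Tri, f (1 - q.1 - q.2, q.2) = ∫ q in Tri, f q := by
  rw [integral_Tri hf, integral_Tri (f := fun q => f (1 - q.1 - q.2, q.2)) (by fun_prop)]
  apply intervalIntegral.integral_congr
  intro t _
  have h1 := intervalIntegral.integral_comp_sub_left (fun s => f (s, t)) (a := 0) (b := 1 - t) (1 - t)
  simp only [sub_self, sub_zero] at h1
  show ∫ s in (0 : ℝ)..(1 - t), f (1 - s - t, t) = ∫ s in (0 : ℝ)..(1 - t), f (s, t)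
  rw [← h1]
  apply intervalIntegral.integral_congr
  intro s _
  show f (1 - s - t, t) = f (1 - t - s, t)
  rw [show 1 - s - t = 1 - t - s by ring]

/-- Fubini, second variable inside -/
lemma integral_Tri' {f : ℝ × ℝ → ℝ} (hf : Continuous f) : 
    ∫ q in Tri, f q = ∫ s in (0 : ℝ)..1, ∫ t in (0 : ℝ)..(1 - s), f (s, t) := by
  rw [← integral_Tri_swap f, integral_Tri (f := fun q => f (q.2, q.1)) (by fun_prop)]

/-- a function of the first coordinate -/
lemma integral_Tri_fst {f : ℝ → ℝ} (hf : Continuous f) : 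
    ∫ q in Tri, f q.1 = ∫ s in (0 : ℝ)..1, (1 - s) * f s := by
  rw [integral_Tri' (f := fun q => f q.1) (by fun_prop)]
  apply intervalIntegral.integral_congr
  intro s _
  show ∫ t in (0 : ℝ)..(1 - s), f s = (1 - s) * f s
  rw [intervalIntegral.integral_const, smul_eq_mul, sub_zero]

/-- **Divergence theorem on the triangle** -/
theorem divergence {p q p' q' : ℝ × ℝ → ℝ} (hp : Continuous p) (hq : Continuous q) 
    (hp' : Continuous p') (hq' : Continuous q') 
    (hdp : ∀ s t, HasDerivAt (fun s => p (s, t)) (p' (s, t)) s)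
    (hdq : ∀ s t, HasDerivAt (fun t => q (s, t)) (q' (s, t)) t) : 
    ∫ x in Tri, (p' x + q' x) = (∫ τ in (0 : ℝ)..1, (p (τ, 1 - τ) + q (τ, 1 - τ))) - 
      (∫ τ in (0 : ℝ)..1, p (0, τ)) - ∫ τ in (0 : ℝ)..1, q (τ, 0) := by
  rw [integral_add (integrableOn_Tri hp') (integrableOn_Tri hq'), integral_Tri hp', integral_Tri' hq']
  have h1 : ∀ t : ℝ, ∫ s in (0 : ℝ)..(1 - t), p' (s, t) = p (1 - t, t) - p (0, t) := by
    intro t
    exact intervalIntegral.integral_eq_sub_of_hasDerivAt (fun s _ => hdp s t) 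
      ((by fun_prop : Continuous (fun s => p' (s, t))).intervalIntegrable _ _)
  have h2 : ∀ s : ℝ, ∫ t in (0 : ℝ)..(1 - s), q' (s, t) = q (s, 1 - s) - q (s, 0) := by
    intro s
    exact intervalIntegral.integral_eq_sub_of_hasDerivAt (fun t _ => hdq s t) 
      ((by fun_prop : Continuous (fun t => q' (s, t))).intervalIntegrable _ _)
  simp only [h1, h2]
  have c1 : Continuous (fun t : ℝ => p (1 - t, t)) := by fun_prop
  have c2 : Continuous (fun t : ℝ => p (0, t)) := by fun_prop
  have c3 : Continuous (fun t : ℝ => q (t, 1 - t)) := by fun_prop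
  have c4 : Continuous (fun t : ℝ => q (t, 0)) := by fun_prop
  have c5 : Continuous (fun t : ℝ => p (t, 1 - t)) := by fun_prop
  rw [intervalIntegral.integral_sub (c1.intervalIntegrable _ _) (c2.intervalIntegrable _ _), 
    intervalIntegral.integral_sub (c3.intervalIntegrable _ _) (c4.intervalIntegrable _ _), 
    intervalIntegral.integral_add (c5.intervalIntegrable _ _) (c3.intervalIntegrable _ _)]
  have h3 := intervalIntegral.integral_comp_sub_left (fun t => p (t, 1 - t)) (a := 0) (b := 1) 1
  simp only [sub_self, sub_zero, sub_sub_cancel] at h3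
  rw [h3]
  ring

end Pool.Agent.Helper58.Robin
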