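import Pool.Agent.Helper58.Robin.Consts

/-!
# The energies of the transplanted trial functions
-/

open MeasureTheory Set

namespace Pool.Agent.Helper58.Robin

namespace Par

variable (π : Par)

/-- trial functions -/
noncomputable def trial (c₁ c₂ c₃ : ℝ) (z : ℝ × ℝ) : ℝ := 
  c₁ * π.F (1 - z.1 - z.2) + c₂ * π.F z.1 + c₃ * π.F z.2

lemma contDiff_trial (c₁ c₂ c₃ : ℝ) : ContDiff ℝ 1 (π.trial c₁ c₂ c₃) := by
  unfold trial; fun_prop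

lemma ps_trial (c₁ c₂ c₃ : ℝ) (z : ℝ × ℝ) : 
    ps (π.trial c₁ c₂ c₃) z = -(c₁ * π.F' (1 - z.1 - z.2)) + c₂ * π.F' z.1 := by
  obtain ⟨s, t⟩ := z
  refine (hasDerivAt_ps (π.contDiff_trial c₁ c₂ c₃) s t).unique ?_
  have h1 : HasDerivAt (fun s : ℝ => 1 - s - t) (-1) s := by
    simpa using ((hasDerivAt_id s).const_sub 1).sub_const t
  have h2 := (((π.hasDerivAt_F (1 - s - t)).comp s h1).const_mul c₁).add 
    ((π.hasDerivAt_F s).const_mul c₂)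
  exact (h2.add_const (c₃ * π.F t)).congr_deriv (by ring)

lemma pt_trial (c₁ c₂ c₃ : ℝ) (z : ℝ × ℝ) : 
    pt (π.trial c₁ c₂ c₃) z = -(c₁ * π.F' (1 - z.1 - z.2)) + c₃ * π.F' z.2 := by
  obtain ⟨s, t⟩ := z
  refine (hasDerivAt_pt (π.contDiff_trial c₁ c₂ c₃) s t).unique ?_
  have h1 : HasDerivAt (fun t : ℝ => 1 - s - t) (-1) t := by
    simpa using ((hasDerivAt_id t).const_sub (1 - s))
  have h2 := ((((π.hasDerivAt_F (1 - s - t)).comp t h1).const_mul c₁).add_const (c₂ * π.F s)).add 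
    ((π.hasDerivAt_F t).const_mul c₃)
  exact h2.congr_deriv (by ring)

/-- the constants -/
noncomputable def I0 : ℝ := ∫ z in Tri, π.F' z.1 ^ 2
noncomputable def I1 : ℝ := ∫ z in Tri, π.F' z.1 * π.F' z.2
noncomputable def D0 : ℝ := ∫ z in Tri, π.F z.1 ^ 2
noncomputable def D1 : ℝ := ∫ z in Tri, π.F z.1 * π.F z.2
noncomputable def b1 : ℝ := ∫ x in (0 : ℝ)..1, π.F x ^ 2
noncomputable def b2 : ℝ := ∫ x in (0 : ℝ)..1, π.F x * π.F (1 - x)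
noncomputable def b3 : ℝ := ∫ x in (0 : ℝ)..1, π.F x

/-- integrals of quadratic expressions in `f (λ_i)` -/
lemma int_sym {f : ℝ → ℝ} (hf : Continuous f) (α₁ α₂ α₃ β₁ β₂ β₃ : ℝ) : 
    ∫ z in Tri, (α₁ * f (1 - z.1 - z.2) ^ 2 + α₂ * f z.1 ^ 2 + α₃ * f z.2 ^ 2 + 
      β₁ * (f z.1 * f z.2) + β₂ * (f (1 - z.1 - z.2) * f z.2) + β₃ * (f (1 - z.1 - z.2) * f z.1)) = 
    (α₁ + α₂ + α₃) * (∫ z in Tri, f z.1 ^ 2) + (β₁ + β₂ + β₃) * ∫ z in Tri, f z.1 * f z.2 := by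
  have i1 : IntegrableOn (fun z : ℝ × ℝ => α₁ * f (1 - z.1 - z.2) ^ 2) Tri := 
    integrableOn_Tri (by fun_prop)
  have i2 : IntegrableOn (fun z : ℝ × ℝ => α₂ * f z.1 ^ 2) Tri := 
    integrableOn_Tri (by fun_prop)
  have i3 : IntegrableOn (fun z : ℝ × ℝ => α₃ * f z.2 ^ 2) Tri := 
    integrableOn_Tri (by fun_prop)
  have i4 : IntegrableOn (fun z : ℝ × ℝ => β₁ * (f z.1 * f z.2)) Tri := 
    integrableOn_Tri (by fun_prop)
  have i5 : IntegrableOn (fun z : ℝ × ℝ => β₂ * (f (1 - z.1 - z.2) * f z.2)) Tri := 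
    integrableOn_Tri (by fun_prop)
  have i6 : IntegrableOn (fun z : ℝ × ℝ => β₃ * (f (1 - z.1 - z.2) * f z.1)) Tri := 
    integrableOn_Tri (by fun_prop)
  have i12 : IntegrableOn (fun z : ℝ × ℝ => α₁ * f (1 - z.1 - z.2) ^ 2 + α₂ * f z.1 ^ 2) Tri := 
    i1.add i2
  have i123 : IntegrableOn (fun z : ℝ × ℝ => α₁ * f (1 - z.1 - z.2) ^ 2 + α₂ * f z.1 ^ 2 + 
    α₃ * f z.2 ^ 2) Tri := i12.add i3
  have i1234 : IntegrableOn (fun z : ℝ × ℝ => α₁ * f (1 - z.1 - z.2) ^ 2 + α₂ * f z.1 ^ 2 + 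
    α₃ * f z.2 ^ 2 + β₁ * (f z.1 * f z.2)) Tri := i123.add i4
  have i12345 : IntegrableOn (fun z : ℝ × ℝ => α₁ * f (1 - z.1 - z.2) ^ 2 + α₂ * f z.1 ^ 2 + 
    α₃ * f z.2 ^ 2 + β₁ * (f z.1 * f z.2) + β₂ * (f (1 - z.1 - z.2) * f z.2)) Tri := i1234.add i5
  rw [integral_add i12345 i6, integral_add i1234 i5, integral_add i123 i4, integral_add i12 i3, 
    integral_add i1 i2]
  simp only [MeasureTheory.integral_const_mul]
  have r1 : ∫ z in Tri, f (1 - z.1 - z.2) ^ 2 = ∫ z in Tri, f z.1 ^ 2 := 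
    integral_Tri_rot (f := fun z => f z.1 ^ 2) (by fun_prop)
  have r2 : ∫ z in Tri, f z.2 ^ 2 = ∫ z in Tri, f z.1 ^ 2 := 
    integral_Tri_swap (fun z => f z.1 ^ 2)
  have r3 : ∫ z in Tri, f (1 - z.1 - z.2) * f z.2 = ∫ z in Tri, f z.1 * f z.2 := 
    integral_Tri_rot (f := fun z => f z.1 * f z.2) (by fun_prop)
  have r4 : ∫ z in Tri, f (1 - z.1 - z.2) * f z.1 = ∫ z in Tri, f z.1 * f z.2 := by
    rw [← r3, ← integral_Tri_swap (fun z => f (1 - z.1 - z.2) * f z.2)]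
    congr 1
    funext z
    show f (1 - z.1 - z.2) * f z.1 = f (1 - z.2 - z.1) * f z.1
    rw [show 1 - z.1 - z.2 = 1 - z.2 - z.1 by ring]
  rw [r1, r2, r3, r4]
  ring

lemma GG_trial (xa xb xc c₁ c₂ c₃ : ℝ) : GG xa xb xc (π.trial c₁ c₂ c₃) = 
    π.I0 * (xa * c₁ ^ 2 + xb * c₂ ^ 2 + xc * c₃ ^ 2) - 
    π.I1 * ((xb + xc - xa) * (c₂ * c₃) + (xa + xb - xc) * (c₁ * c₂) + (xa + xc - xb) * (c₁ * c₃)) := by
  unfold GG
  simp only [ps_trial, pt_trial]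
  have h := int_sym (f := π.F') π.continuous_F' (xa * c₁ ^ 2) (xb * c₂ ^ 2) (xc * c₃ ^ 2) 
    (-((xb + xc - xa) * (c₂ * c₃))) (-((xa + xc - xb) * (c₁ * c₃))) (-((xa + xb - xc) * (c₁ * c₂)))
  unfold I0 I1
  rw [show ((∫ z in Tri, π.F' z.1 ^ 2) * (xa * c₁ ^ 2 + xb * c₂ ^ 2 + xc * c₃ ^ 2) - 
    (∫ z in Tri, π.F' z.1 * π.F' z.2) * ((xb + xc - xa) * (c₂ * c₃) + (xa + xb - xc) * (c₁ * c₂) + 
      (xa + xc - xb) * (c₁ * c₃))) = 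
    (xa * c₁ ^ 2 + xb * c₂ ^ 2 + xc * c₃ ^ 2) * (∫ z in Tri, π.F' z.1 ^ 2) + 
    (-((xb + xc - xa) * (c₂ * c₃)) + -((xa + xc - xb) * (c₁ * c₃)) + 
      -((xa + xb - xc) * (c₁ * c₂))) * ∫ z in Tri, π.F' z.1 * π.F' z.2 by ring, ← h]
  congr 1
  funext z
  ring

lemma DD_trial (c₁ c₂ c₃ : ℝ) : DD (π.trial c₁ c₂ c₃) = 
    π.D0 * (c₁ ^ 2 + c₂ ^ 2 + c₃ ^ 2) + π.D1 * (2 * (c₂ * c₃ + c₁ * c₂ + c₁ * c₃)) := by
  unfold DD
  have h := int_sym (f := π.F) π.continuous_F (c₁ ^ 2) (c₂ ^ 2) (c₃ ^ 2) 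
    (2 * (c₂ * c₃)) (2 * (c₁ * c₃)) (2 * (c₁ * c₂))
  unfold D0 D1
  rw [show ((∫ z in Tri, π.F z.1 ^ 2) * (c₁ ^ 2 + c₂ ^ 2 + c₃ ^ 2) + 
    (∫ z in Tri, π.F z.1 * π.F z.2) * (2 * (c₂ * c₃ + c₁ * c₂ + c₁ * c₃))) = 
    (c₁ ^ 2 + c₂ ^ 2 + c₃ ^ 2) * (∫ z in Tri, π.F z.1 ^ 2) + 
    (2 * (c₂ * c₃) + 2 * (c₁ * c₃) + 2 * (c₁ * c₂)) * ∫ z in Tri, π.F z.1 * π.F z.2 by ring, ← h]
  congr 1
  funext z
  unfold trial
  ring

lemma side_int (c d e : ℝ) : ∫ τ in (0 : ℝ)..1, (c + d * π.F τ + e * π.F (1 - τ)) ^ 2 = 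
    c ^ 2 + (d ^ 2 + e ^ 2) * π.b1 + 2 * (d * e) * π.b2 + 2 * (c * (d + e)) * π.b3 := by
  have hc := π.continuous_F
  have e1 : ∀ τ : ℝ, (c + d * π.F τ + e * π.F (1 - τ)) ^ 2 = c ^ 2 + d ^ 2 * π.F τ ^ 2 + 
      e ^ 2 * π.F (1 - τ) ^ 2 + 2 * (d * e) * (π.F τ * π.F (1 - τ)) + 2 * (c * d) * π.F τ + 
      2 * (c * e) * π.F (1 - τ) := by intro τ; ring
  simp only [e1]
  have j0 : IntervalIntegrable (fun _ : ℝ => c ^ 2) volume 0 1 := 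
    continuous_const.intervalIntegrable _ _
  have j1 : IntervalIntegrable (fun τ : ℝ => d ^ 2 * π.F τ ^ 2) volume 0 1 := 
    (by fun_prop : Continuous (fun τ : ℝ => d ^ 2 * π.F τ ^ 2)).intervalIntegrable _ _
  have j2 : IntervalIntegrable (fun τ : ℝ => e ^ 2 * π.F (1 - τ) ^ 2) volume 0 1 := 
    (by fun_prop : Continuous (fun τ : ℝ => e ^ 2 * π.F (1 - τ) ^ 2)).intervalIntegrable _ _
  have j3 : IntervalIntegrable (fun τ : ℝ => 2 * (d * e) * (π.F τ * π.F (1 - τ))) volume 0 1 := 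
    (by fun_prop : Continuous (fun τ : ℝ => 2 * (d * e) * (π.F τ * π.F (1 - τ)))).intervalIntegrable _ _
  have j4 : IntervalIntegrable (fun τ : ℝ => 2 * (c * d) * π.F τ) volume 0 1 := 
    (by fun_prop : Continuous (fun τ : ℝ => 2 * (c * d) * π.F τ)).intervalIntegrable _ _
  have j5 : IntervalIntegrable (fun τ : ℝ => 2 * (c * e) * π.F (1 - τ)) volume 0 1 := 
    (by fun_prop : Continuous (fun τ : ℝ => 2 * (c * e) * π.F (1 - τ))).intervalIntegrable _ _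
  rw [intervalIntegral.integral_add ((((j0.add j1).add j2).add j3).add j4) j5, 
    intervalIntegral.integral_add (((j0.add j1).add j2).add j3) j4, 
    intervalIntegral.integral_add ((j0.add j1).add j2) j3, 
    intervalIntegral.integral_add (j0.add j1) j2, intervalIntegral.integral_add j0 j1]
  simp only [intervalIntegral.integral_const_mul, intervalIntegral.integral_const]
  have h1 := intervalIntegral.integral_comp_sub_left (fun x => π.F x) (a := 0) (b := 1) 1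
  have h2 := intervalIntegral.integral_comp_sub_left (fun x => π.F x ^ 2) (a := 0) (b := 1) 1
  simp only [sub_self, sub_zero] at h1 h2
  rw [h1, h2]
  unfold b1 b2 b3
  simp only [sub_zero, one_smul]
  ring

lemma BB_trial (ya yb yc c₁ c₂ c₃ : ℝ) : BB ya yb yc (π.trial c₁ c₂ c₃) = 
    ya * (c₁ ^ 2 + (c₂ ^ 2 + c₃ ^ 2) * π.b1 + 2 * (c₂ * c₃) * π.b2 + 2 * (c₁ * (c₂ + c₃)) * π.b3) + 
    yb * (c₂ ^ 2 + (c₁ ^ 2 + c₃ ^ 2) * π.b1 + 2 * (c₁ * c₃) * π.b2 + 2 * (c₂ * (c₁ + c₃)) * π.b3) + 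
    yc * (c₃ ^ 2 + (c₁ ^ 2 + c₂ ^ 2) * π.b1 + 2 * (c₁ * c₂) * π.b2 + 2 * (c₃ * (c₁ + c₂)) * π.b3) := by
  unfold BB
  have e1 : ∀ τ : ℝ, π.trial c₁ c₂ c₃ (τ, 1 - τ) = c₁ + c₂ * π.F τ + c₃ * π.F (1 - τ) := by
    intro τ
    unfold trial
    simp only
    rw [show (1 : ℝ) - τ - (1 - τ) = 0 by ring, π.F_zero, mul_one]
  have e2 : ∀ τ : ℝ, π.trial c₁ c₂ c₃ (0, τ) = c₂ + c₃ * π.F τ + c₁ * π.F (1 - τ) := by
    intro τ
    unfold trial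
    simp only
    rw [sub_zero, π.F_zero]
    ring
  have e3 : ∀ τ : ℝ, π.trial c₁ c₂ c₃ (τ, 0) = c₃ + c₂ * π.F τ + c₁ * π.F (1 - τ) := by
    intro τ
    unfold trial
    simp only
    rw [sub_zero, π.F_zero]
    ring
  simp only [e1, e2, e3, side_int]
  ring

end Par

end Pool.Agent.Helper58.Robin
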